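import Mathlib

/-!
Definitions for the problem on Widom factors of reflectionless measures on finite gap sets.
-/

set_option autoImplicit false

namespace Pool.Agent.Lib.MP_7fabd3_an

open MeasureTheory
open scoped ENNReal

/-- The finite gap set `K = ⋃ j, [α j, β j]`. -/
def gapSet {l : ℕ} (α β : Fin (l + 1) → ℝ) : Set ℝ := ⋃ j, Set.Icc (α j) (β j)

/-- `ν` is a Borel probability measure carried by `K`. -/
def ProbOn (K : Set ℝ) (ν : Measure ℝ) : Prop := IsProbabilityMeasure ν ∧ ν Kᶜ = 0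

/-- The logarithmic energy `I(ν) = ∬ log (1 / |x - y|) dν(x) dν(y)`, with `log (1 / 0) = ∞`,
as the difference of the integrals of the positive and of the negative part of the kernel. -/
noncomputable def logEnergy (ν : Measure ℝ) : EReal :=
  ((∫⁻ x, ∫⁻ y, (-ENNReal.log (edist x y)).toENNReal ∂ν ∂ν : ℝ≥0∞) : EReal)
    - ((∫⁻ x, ∫⁻ y, (ENNReal.log (edist x y)).toENNReal ∂ν ∂ν : ℝ≥0∞) : EReal)

/-- The logarithmic capacity `cap(K) = exp (- inf I(ν))`, the infimum over all Borel
probability measures `ν` carried by `K`. -/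
noncomputable def logCap (K : Set ℝ) : ℝ≥0∞ :=
  EReal.exp (-(⨅ (ν : Measure ℝ) (_ : ProbOn K ν), logEnergy ν))

/-- `μ` is the equilibrium measure of `K`: it minimises the logarithmic energy among the
Borel probability measures carried by `K`. -/
def IsEquilibrium (K : Set ℝ) (μ : Measure ℝ) : Prop :=
  ProbOn K μ ∧ ∀ ν : Measure ℝ, ProbOn K ν → logEnergy μ ≤ logEnergy ν

/-- The `L²` Widom factor `W_n²(μ) = inf ‖P‖_{L²(μ)} / cap(K)ⁿ`, the infimum over the monic
polynomials `P` of degree `n`. -/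
noncomputable def widom (K : Set ℝ) (μ : Measure ℝ) (n : ℕ) : ℝ≥0∞ :=
  (⨅ (P : Polynomial ℂ) (_ : P.Monic) (_ : P.natDegree = n),
    eLpNorm (fun x : ℝ => P.eval (x : ℂ)) 2 μ) / logCap K ^ n

/-- The reflectionless measure `μ_γ` on `K` with parameters `γ`: its density on `K` is
`(1/π) Im G_γ(x + i0) = (1/π) ∏ |x - γ_j| / √(∏ |x - α_j| |x - β_j|)`. -/
noncomputable def reflMeasure {l : ℕ} (α β : Fin (l + 1) → ℝ) (γ : Fin l → ℝ) : Measure ℝ :=
  (volume.restrict (gapSet α β)).withDensity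
    (fun x => ENNReal.ofReal
      (1 / Real.pi * ((∏ j, |x - γ j|) / Real.sqrt (∏ j, |x - α j| * |x - β j|))))

/-- The log-density `log f`, where `f = dμ/dμ_K` (Lebesgue decomposition of `μ` with respect to
the equilibrium measure `μ_K`). -/
noncomputable def logDensity (μK μ : Measure ℝ) (x : ℝ) : ℝ :=
  Real.log (μ.rnDeriv μK x).toReal

end Pool.Agent.Lib.MP_7fabd3_an
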