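import Mathlib

set_option autoImplicit false

namespace Pool.Agent.Lib.MP_7fabd3_an

open Polynomial

/-- the concrete set -/
def K0 : Set ℝ := Set.Icc (-11) (-2) ∪ Set.Icc 13 14

/-- `100 T` -/
noncomputable def W : ℝ[X] := X ^ 3 - C 147 * X - C 486

lemma W_natDegree : W.natDegree = 3 := by
  unfold W; compute_degree!

lemma W_monic : W.Monic := by
  unfold W; monicity!

/-- rescaled Chebyshev polynomials of `T` -/
noncomputable def Q : ℕ → ℝ[X]
  | 0 => 1
  | 1 => W
  | (n + 2) => W * Q (n + 1) - C (if n = 0 then 20000 else 10000) * Q n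

lemma Q_monic_deg : ∀ n, (Q n).Monic ∧ (Q n).natDegree = 3 * n
  | 0 => by simp [Q]
  | 1 => by simp [Q, W_monic, W_natDegree]
  | (n + 2) => by
    obtain ⟨h1, h2⟩ := Q_monic_deg (n + 1)
    obtain ⟨h3, h4⟩ := Q_monic_deg n
    have hm : (W * Q (n + 1)).Monic := W_monic.mul h1
    have hd : (W * Q (n + 1)).natDegree = 3 * (n + 2) := by
      rw [W_monic.natDegree_mul h1, W_natDegree, h2]; ring
    have hlt : (C (if n = 0 then (20000 : ℝ) else 10000) * Q n).natDegree
        < (W * Q (n + 1)).natDegree := by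
      refine lt_of_le_of_lt (natDegree_C_mul_le _ _) ?_
      rw [hd, h4]; omega
    constructor
    · rw [Q]
      exact hm.sub_of_left (degree_lt_degree hlt)
    · rw [Q, natDegree_sub_eq_left_of_natDegree_lt hlt, hd]

lemma Q_eval (x θ : ℝ) (h : W.eval x = 200 * Real.cos θ) :
    ∀ n : ℕ, (Q (n + 1)).eval x = 2 * 100 ^ (n + 1) * Real.cos ((n + 1) * θ)
  | 0 => by
    have : (((0 : ℕ) : ℝ) + 1) * θ = θ := by simp
    rw [this]; simp only [Q, h]; norm_num
  | 1 => by
    simp only [Q, eval_sub, eval_mul, eval_C, h]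
    have : Real.cos (((1 : ℕ) + 1) * θ) = 2 * Real.cos θ ^ 2 - 1 := by
      rw [← Real.cos_two_mul]; norm_num
    rw [this]
    simp
    ring
  | (n + 2) => by
    have h1 := Q_eval x θ h (n + 1)
    have h2 := Q_eval x θ h n
    rw [Q]
    simp only [eval_sub, eval_mul, eval_C, h, h1, h2]
    have e : Real.cos (((n + 2 : ℕ) + 1) * θ) + Real.cos ((n + 1) * θ)
        = 2 * Real.cos θ * Real.cos (((n + 1 : ℕ) + 1) * θ) := by
      have := Real.cos_add_cos (((n + 2 : ℕ) + 1) * θ) ((n + 1) * θ)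
      rw [this]
      have e1 : ((((n + 2 : ℕ) : ℝ) + 1) * θ + (n + 1) * θ) / 2 = (((n + 1 : ℕ) : ℝ) + 1) * θ := by
        push_cast; ring
      have e2 : ((((n + 2 : ℕ) : ℝ) + 1) * θ - (n + 1) * θ) / 2 = θ := by
        push_cast; ring
      rw [e1, e2]; ring
    have e' : Real.cos (((n + 2 : ℕ) + 1) * θ)
        = 2 * Real.cos θ * Real.cos (((n + 1 : ℕ) + 1) * θ) - Real.cos ((n + 1) * θ) := by
      linarith
    rw [e']
    have : (if n + 1 = 0 then (20000 : ℝ) else 10000) = 10000 := by simp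
    rw [this]
    ring

lemma W_bound {x : ℝ} (hx : x ∈ K0) : |W.eval x| ≤ 200 := by
  have : W.eval x = x ^ 3 - 147 * x - 486 := by simp [W]
  rw [this, abs_le]
  have e1 : x ^ 3 - 147 * x - 486 - 200 = (x + 7) ^ 2 * (x - 14) := by ring
  have e2 : x ^ 3 - 147 * x - 486 + 200 = (x + 11) * (x + 2) * (x - 13) := by ring
  rcases hx with ⟨h1, h2⟩ | ⟨h1, h2⟩
  · constructor
    · have : 0 ≤ (x + 11) * (x + 2) * (x - 13) := by
        have : 0 ≤ (x + 11) * ((-x - 2) * (13 - x)) :=
          mul_nonneg (by linarith) (mul_nonneg (by linarith) (by linarith))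
        linarith
      linarith
    · have : 0 ≤ (x + 7) ^ 2 * (14 - x) := mul_nonneg (sq_nonneg _) (by linarith)
      linarith
  · constructor
    · have : 0 ≤ (x + 11) * (x + 2) * (x - 13) :=
        mul_nonneg (mul_nonneg (by linarith) (by linarith)) (by linarith)
      linarith
    · have : 0 ≤ (x + 7) ^ 2 * (14 - x) := mul_nonneg (sq_nonneg _) (by linarith)
      linarith

lemma Q_bound {x : ℝ} (hx : x ∈ K0) (m : ℕ) : |(Q m).eval x| ≤ 2 * 100 ^ m := by
  obtain ⟨h1, h2⟩ := abs_le.1 (W_bound hx)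
  have hθ : W.eval x = 200 * Real.cos (Real.arccos (W.eval x / 200)) := by
    rw [Real.cos_arccos (by linarith) (by linarith)]; ring
  rcases m with _ | n
  · simp [Q]
  · rw [Q_eval x _ hθ n, abs_mul, abs_of_nonneg (by positivity : (0 : ℝ) ≤ 2 * 100 ^ (n + 1))]
    have := Real.abs_cos_le_one ((n + 1) * Real.arccos (W.eval x / 200))
    exact mul_le_of_le_one_right (by positivity) this

/-- monic polynomials of each degree, small on `K0` -/
noncomputable def P (k : ℕ) : ℝ[X] := X ^ (k % 3) * Q (k / 3)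

lemma P_monic (k : ℕ) : (P k).Monic := (monic_X_pow _).mul (Q_monic_deg _).1

lemma P_natDegree (k : ℕ) : (P k).natDegree = k := by
  unfold P
  rw [(monic_X_pow _).natDegree_mul (Q_monic_deg _).1, natDegree_X_pow, (Q_monic_deg _).2]
  omega

lemma P_bound {x : ℝ} (hx : x ∈ K0) (k : ℕ) : |(P k).eval x| ≤ 392 * 100 ^ (k / 3) := by
  have hx14 : |x| ≤ 14 := by
    rw [abs_le]
    rcases hx with ⟨h1, h2⟩ | ⟨h1, h2⟩ <;> constructor <;> linarith
  unfold P
  rw [eval_mul, abs_mul, eval_pow, eval_X, abs_pow]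
  have h1 : |x| ^ (k % 3) ≤ 196 := by
    have : k % 3 < 3 := Nat.mod_lt _ (by norm_num)
    have hk : k % 3 ≤ 2 := by omega
    calc |x| ^ (k % 3) ≤ 14 ^ (k % 3) := pow_le_pow_left₀ (abs_nonneg _) hx14 _
      _ ≤ 14 ^ 2 := pow_le_pow_right₀ (by norm_num) hk
      _ = 196 := by norm_num
  calc |x| ^ (k % 3) * |(Q (k / 3)).eval x| ≤ 196 * (2 * 100 ^ (k / 3)) :=
        mul_le_mul h1 (Q_bound hx _) (abs_nonneg _) (by norm_num)
    _ = _ := by ring

/-- upper bound for Vandermonde determinants of points of `K0` -/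
lemma vandermonde_bound (n : ℕ) (v : Fin n → ℝ) (hv : ∀ i, v i ∈ K0) :
    |(Matrix.vandermonde v).det| ≤ n.factorial * 392 ^ n * ∏ k : Fin n, (100 : ℝ) ^ ((k : ℕ) / 3) := by
  have h := Matrix.det_eval_matrixOfPolynomials_eq_det_vandermonde v (fun k : Fin n => P k)
    (fun i => P_natDegree i) (fun i => P_monic i)
  rw [h]
  have hf : (Matrix.of fun i j : Fin n => (P (j : ℕ)).eval (v i))
      = Matrix.of (fun i j : Fin n => (100 : ℝ) ^ ((j : ℕ) / 3) *
        (Matrix.of (fun i j : Fin n => (P (j : ℕ)).eval (v i) / (100 : ℝ) ^ ((j : ℕ) / 3))) i j) := by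
    ext i j
    simp only [Matrix.of_apply]
    field_simp
  rw [hf, Matrix.det_mul_row, abs_mul, abs_of_nonneg (by positivity), mul_comm]
  refine mul_le_mul_of_nonneg_right ?_ (by positivity)
  have := Matrix.det_le (A := Matrix.of (fun i j : Fin n => (P (j : ℕ)).eval (v i)
    / (100 : ℝ) ^ ((j : ℕ) / 3))) (abv := AbsoluteValue.abs) (x := (392 : ℝ)) (by
      intro i j
      simp only [Matrix.of_apply, AbsoluteValue.abs_apply]
      rw [abs_div, abs_of_nonneg (by positivity : (0 : ℝ) ≤ 100 ^ ((j : ℕ) / 3)),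
        div_le_iff₀ (by positivity)]
      exact P_bound (hv i) j)
  simpa [nsmul_eq_mul] using this

end Pool.Agent.Lib.MP_7fabd3_an
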