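import Mathlib
import Pool.Agent.Lib.MP_7fabd3_an.Det

set_option autoImplicit false

namespace Pool.Agent.Lib.MP_7fabd3_an

open MeasureTheory ProbabilityTheory Finset

variable {ν : Measure ℝ} [IsProbabilityMeasure ν]

lemma map_pair (n : ℕ) {i j : Fin n} (hij : i ≠ j) :
    (Measure.pi (fun _ : Fin n => ν)).map (fun v => (v j, v i)) = ν.prod ν := by
  have h : iIndepFun (fun (i : Fin n) (ω : Fin n → ℝ) => id (ω i))
      (Measure.pi (fun _ : Fin n => ν)) :=
    iIndepFun_pi (X := fun _ => id) (fun _ => aemeasurable_id)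
  have h2 := (h.indepFun hij.symm).map_prod_eq_prod_map_map
    (measurable_pi_apply j).aemeasurable (measurable_pi_apply i).aemeasurable
  rw [h2]
  have e : ∀ k : Fin n, (Measure.pi (fun _ : Fin n => ν)).map (fun v => v k) = ν := by
    intro k
    exact (measurePreserving_eval (fun _ : Fin n => ν) k).map_eq
  rw [e, e]

lemma sum_card (n : ℕ) : ∑ i : Fin n, (((Ioi i).card : ℕ) : ℝ) = n * (n - 1) / 2 := by
  have h : ∀ i : Fin n, ((Ioi i).card : ℝ) = (n : ℝ) - 1 - (i : ℕ) := by
    intro i
    rw [Fin.card_Ioi]
    have : (i : ℕ) ≤ n - 1 := by omega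
    have h1 : 1 ≤ n := by have := i.2; omega
    rw [Nat.cast_sub this, Nat.cast_sub h1]; simp
  simp_rw [h]
  rw [Fin.sum_univ_eq_sum_range (fun i => (n : ℝ) - 1 - (i : ℕ)) n]
  rw [Finset.sum_sub_distrib]
  have h2 : ∀ n : ℕ, ∑ i ∈ Finset.range n, (i : ℝ) = n * (n - 1) / 2 := by
    intro n
    induction n with
    | zero => simp
    | succ k ih => rw [Finset.sum_range_succ, ih]; push_cast; ring
  rw [h2]
  simp
  ring

/-- Upper bound for `∬ log |x-y| dν dν`, i.e. lower bound for the energy. -/
lemma log_integral_le (hK : ν K0ᶜ = 0)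
    (hdiag : ∀ᵐ p ∂(ν.prod ν), p.1 ≠ p.2)
    (hint : Integrable (fun p : ℝ × ℝ => Real.log |p.1 - p.2|) (ν.prod ν)) :
    ∫ p, Real.log |p.1 - p.2| ∂(ν.prod ν) ≤ Real.log 100 / 3 := by
  set J := ∫ p, Real.log |p.1 - p.2| ∂(ν.prod ν) with hJ
  -- the basic inequality for each n
  have key : ∀ n : ℕ, (n : ℝ) * (n - 1) / 2 * J ≤
      Real.log (n.factorial) + n * Real.log 392 + (n * (n - 1) / 2) * (Real.log 100 / 3) := by
    intro n
    set π := Measure.pi (fun _ : Fin n => ν) with hπ
    have hpair : ∀ i : Fin n, ∀ j ∈ Ioi i,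
        MeasurePreserving (fun v : Fin n → ℝ => (v j, v i)) π (ν.prod ν) := by
      intro i j hj
      exact ⟨by fun_prop, map_pair n (Finset.mem_Ioi.1 hj).ne⟩
    have hintp : ∀ i : Fin n, ∀ j ∈ Ioi i,
        Integrable (fun v : Fin n → ℝ => Real.log |v j - v i|) π := by
      intro i j hj
      exact ((hpair i j hj).integrable_comp hint.aestronglyMeasurable).2 hint
    have hJp : ∀ i : Fin n, ∀ j ∈ Ioi i, ∫ v, Real.log |v j - v i| ∂π = J := by
      intro i j hj
      have := integral_map (μ := π) (φ := fun v : Fin n → ℝ => (v j, v i))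
        (hpair i j hj).measurable.aemeasurable
        (f := fun p : ℝ × ℝ => Real.log |p.1 - p.2|) (by
          rw [(hpair i j hj).map_eq]; exact hint.aestronglyMeasurable)
      rw [(hpair i j hj).map_eq] at this
      rw [hJ, this]
    have hsum : ∫ v, ∑ i : Fin n, ∑ j ∈ Ioi i, Real.log |v j - v i| ∂π
        = (n : ℝ) * (n - 1) / 2 * J := by
      rw [integral_finsetSum _ (fun i _ => integrable_finsetSum _ (fun j hj => hintp i j hj))]
      have : ∀ i : Fin n, ∫ v, ∑ j ∈ Ioi i, Real.log |v j - v i| ∂π = ((Ioi i).card : ℝ) * J := by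
        intro i
        rw [integral_finsetSum _ (fun j hj => hintp i j hj), Finset.sum_congr rfl (hJp i)]
        simp
      simp_rw [this]
      rw [← Finset.sum_mul, sum_card]
    have hdist : ∀ᵐ v ∂π, ∀ i : Fin n, ∀ j ∈ Ioi i, v j ≠ v i := by
      rw [ae_all_iff]; intro i
      rw [ae_all_iff]; intro j
      by_cases hj : j ∈ Ioi i
      · have := (hpair i j hj).quasiMeasurePreserving.ae hdiag
        filter_upwards [this] with v hv _ using hv
      · exact Filter.Eventually.of_forall (fun v h => absurd h hj)
    have hKn : ∀ᵐ v ∂π, ∀ i : Fin n, v i ∈ K0 := by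
      rw [ae_all_iff]; intro i
      have h1 : ∀ᵐ x ∂ν, x ∈ K0 := hK
      exact (measurePreserving_eval (fun _ : Fin n => ν) i).quasiMeasurePreserving.ae h1
    have hbound : ∀ᵐ v ∂π, ∑ i : Fin n, ∑ j ∈ Ioi i, Real.log |v j - v i| ≤
        Real.log (n.factorial) + n * Real.log 392 + (n * (n - 1) / 2) * (Real.log 100 / 3) := by
      filter_upwards [hdist, hKn] with v h1 h2
      have e : ∑ i : Fin n, ∑ j ∈ Ioi i, Real.log |v j - v i|
          = Real.log |(Matrix.vandermonde v).det| := by
        rw [Matrix.det_vandermonde, Finset.abs_prod, Real.log_prod]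
        · refine Finset.sum_congr rfl (fun i _ => ?_)
          rw [Finset.abs_prod, Real.log_prod]
          intro j hj
          exact abs_ne_zero.2 (sub_ne_zero.2 (h1 i j hj))
        · intro i _
          rw [Finset.abs_prod]
          exact Finset.prod_ne_zero_iff.2 (fun j hj => abs_ne_zero.2 (sub_ne_zero.2 (h1 i j hj)))
      rw [e]
      have hne : 0 < |(Matrix.vandermonde v).det| := by
        rw [abs_pos, Matrix.det_vandermonde]
        exact Finset.prod_ne_zero_iff.2 (fun i _ =>
          Finset.prod_ne_zero_iff.2 (fun j hj => sub_ne_zero.2 (h1 i j hj)))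
      calc Real.log |(Matrix.vandermonde v).det|
          ≤ Real.log (n.factorial * 392 ^ n * ∏ k : Fin n, (100 : ℝ) ^ ((k : ℕ) / 3)) :=
            Real.log_le_log hne (vandermonde_bound n v h2)
        _ = Real.log (n.factorial) + n * Real.log 392
            + ∑ k : Fin n, (((k : ℕ) / 3 : ℕ) : ℝ) * Real.log 100 := by
            rw [Real.log_mul (by positivity) (by positivity),
              Real.log_mul (by positivity) (by positivity), Real.log_pow, Real.log_prod
                (fun k _ => by positivity)]
            simp [Real.log_pow]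
        _ ≤ _ := by
            have hl : (0 : ℝ) ≤ Real.log 100 := Real.log_nonneg (by norm_num)
            have : ∑ k : Fin n, (((k : ℕ) / 3 : ℕ) : ℝ) * Real.log 100
                ≤ ∑ k : Fin n, (((k : ℕ) : ℝ) / 3) * Real.log 100 := by
              refine Finset.sum_le_sum (fun k _ => ?_)
              exact mul_le_mul_of_nonneg_right Nat.cast_div_le hl
            have h2 : ∑ k : Fin n, (((k : ℕ) : ℝ) / 3) * Real.log 100
                = (n * (n - 1) / 2) * (Real.log 100 / 3) := by
              rw [Fin.sum_univ_eq_sum_range (fun k => ((k : ℕ) : ℝ) / 3 * Real.log 100) n,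
                ← Finset.sum_mul, ← Finset.sum_div]
              have h3 : ∀ n : ℕ, ∑ i ∈ Finset.range n, (i : ℝ) = n * (n - 1) / 2 := by
                intro n
                induction n with
                | zero => simp
                | succ k ih => rw [Finset.sum_range_succ, ih]; push_cast; ring
              rw [h3]; ring
            linarith
    rw [← hsum]
    have := integral_mono_ae (μ := π)
      (integrable_finsetSum _ (fun i _ => integrable_finsetSum _ (fun j hj => hintp i j hj)))
      (integrable_const (Real.log (n.factorial) + n * Real.log 392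
        + (n * (n - 1) / 2) * (Real.log 100 / 3))) hbound
    simpa using this
  -- let n → ∞
  by_contra hlt
  push Not at hlt
  set ε := J - Real.log 100 / 3 with hε
  have hεpos : 0 < ε := by linarith
  -- for all n ≥ 2 : (n-1)/2 ε ≤ log n + log 392
  have h2 : ∀ n : ℕ, 1 ≤ n → ((n : ℝ) - 1) / 2 * ε ≤ Real.log n + Real.log 392 := by
    intro n hn
    have h := key n
    have hn' : (0 : ℝ) < n := by exact_mod_cast hn
    have hfac : Real.log (n.factorial) ≤ n * Real.log n := by
      have : ((n.factorial : ℕ) : ℝ) ≤ (n : ℝ) ^ n := by exact_mod_cast Nat.factorial_le_pow n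
      calc Real.log (n.factorial) ≤ Real.log ((n : ℝ) ^ n) :=
            Real.log_le_log (by exact_mod_cast Nat.factorial_pos n) this
        _ = n * Real.log n := by rw [Real.log_pow]
    have h3 : (n : ℝ) * (((n : ℝ) - 1) / 2 * ε) ≤ n * (Real.log n + Real.log 392) := by
      rw [hε]; nlinarith
    exact le_of_mul_le_mul_left h3 hn'
  have h4 : Filter.Tendsto (fun n : ℕ => ((n : ℝ) - 1) / 2 * ε - Real.log n) Filter.atTop
      Filter.atTop := by
    have h5 : Filter.Tendsto (fun x : ℝ => (x - 1) / 2 * ε - Real.log x) Filter.atTop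
        Filter.atTop := by
      have h6 := Real.isLittleO_log_id_atTop
      have h7 : ∀ᶠ x : ℝ in Filter.atTop, ε / 4 * x - ε / 2 ≤ (x - 1) / 2 * ε - Real.log x := by
        have := h6.def (c := ε / 4) (by positivity)
        filter_upwards [this, Filter.eventually_ge_atTop (1 : ℝ)] with x hx hx1
        have h8 : Real.log x ≤ ε / 4 * x := by
          have := le_trans (le_abs_self _) hx
          simpa [abs_of_nonneg (by linarith : (0 : ℝ) ≤ x)] using this
        nlinarith
      refine Filter.tendsto_atTop_mono' _ h7 ?_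
      exact Filter.tendsto_atTop_add_const_right _ _
        (Filter.Tendsto.const_mul_atTop (by positivity) Filter.tendsto_id)
    exact h5.comp tendsto_natCast_atTop_atTop
  obtain ⟨n, hn, hn1⟩ := ((h4.eventually_gt_atTop (Real.log 392)).and
    (Filter.eventually_ge_atTop 1)).exists
  have := h2 n hn1
  linarith

end Pool.Agent.Lib.MP_7fabd3_an
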