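import Mathlib

set_option autoImplicit false

namespace Pool.Agent.Lib.MP_7fabd3_an

open Set Real

/-- constant -/
noncomputable def kk : ℝ := 10 / √343

lemma kk_sq : kk ^ 2 = 100 / 343 := by
  unfold kk; rw [div_pow, Real.sq_sqrt (by norm_num)]; norm_num

lemma kk_pos : 0 < kk := by unfold kk; positivity

lemma kk_lt : kk < 1 := by
  have := kk_sq
  nlinarith [kk_pos]

/-- angle -/
noncomputable def tau (θ : ℝ) : ℝ := 2 / 3 * arcsin (kk * sin (θ / 2))

lemma sin_half_mem {θ : ℝ} (h : θ ∈ Icc 0 π) : sin (θ / 2) ∈ Icc (0 : ℝ) 1 :=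
  ⟨sin_nonneg_of_nonneg_of_le_pi (by linarith [h.1]) (by linarith [h.1, h.2, pi_pos]), sin_le_one _⟩

lemma arg_mem {θ : ℝ} (h : θ ∈ Icc 0 π) : kk * sin (θ / 2) ∈ Icc (0 : ℝ) kk := by
  have := sin_half_mem h
  exact ⟨mul_nonneg kk_pos.le this.1, mul_le_of_le_one_right kk_pos.le this.2⟩

lemma tau_mem {θ : ℝ} (h : θ ∈ Icc 0 π) : tau θ ∈ Icc 0 (π / 3) := by
  have h1 := arg_mem h
  unfold tau
  constructor
  · have := arcsin_nonneg.2 h1.1
    positivity
  · have := arcsin_le_pi_div_two (kk * sin (θ / 2))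
    linarith

lemma tau_zero : tau 0 = 0 := by simp [tau]

lemma sin_tau {θ : ℝ} (h : θ ∈ Icc 0 π) : sin (3 * tau θ / 2) = kk * sin (θ / 2) := by
  have h1 := arg_mem h
  have e : 3 * tau θ / 2 = arcsin (kk * sin (θ / 2)) := by unfold tau; ring
  rw [e, sin_arcsin (by linarith [h1.1]) (by linarith [h1.2, kk_lt])]

lemma cos_three_tau {θ : ℝ} (h : θ ∈ Icc 0 π) : 686 * cos (3 * tau θ) - 486 = 200 * cos θ := by
  have h1 : cos (3 * tau θ) = 1 - 2 * sin (3 * tau θ / 2) ^ 2 := by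
    have : 3 * tau θ = 2 * (3 * tau θ / 2) := by ring
    conv_lhs => rw [this]
    rw [cos_two_mul, cos_sq']; ring
  have h2 : cos θ = 1 - 2 * sin (θ / 2) ^ 2 := by
    have : θ = 2 * (θ / 2) := by ring
    conv_lhs => rw [this]
    rw [cos_two_mul, cos_sq']; ring
  rw [h1, sin_tau h, h2, mul_pow, kk_sq]; ring

lemma tau_strictMono : StrictMonoOn tau (Icc 0 π) := by
  intro a ha b hb hab
  unfold tau
  have h1 := arg_mem ha
  have h2 := arg_mem hb
  have h3 : sin (a / 2) < sin (b / 2) :=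
    sin_lt_sin_of_lt_of_le_pi_div_two (by linarith [ha.1, pi_pos]) (by linarith [hb.2])
      (by linarith)
  have h4 : kk * sin (a / 2) < kk * sin (b / 2) := mul_lt_mul_of_pos_left h3 kk_pos
  have := strictMonoOn_arcsin ⟨by linarith [h1.1], by linarith [h1.2, kk_lt]⟩
    ⟨by linarith [h2.1], by linarith [h2.2, kk_lt]⟩ h4
  linarith

lemma tau_continuous : Continuous tau := by
  unfold tau; fun_prop

lemma tau_hasDerivAt {θ : ℝ} (h : θ ∈ Ioo 0 π) : ∃ d, 0 < d ∧ HasDerivAt tau d θ := by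
  have h1 := arg_mem (Ioo_subset_Icc_self h)
  have hs : HasDerivAt (fun θ : ℝ => kk * sin (θ / 2)) (kk * (cos (θ / 2) * (1 / 2))) θ := by
    have := ((hasDerivAt_id θ).div_const 2).sin.const_mul kk
    simpa using this
  have h2 := (hasDerivAt_arcsin (x := kk * sin (θ / 2)) (by linarith [h1.1])
    (by linarith [h1.2, kk_lt]) |>.comp θ hs).const_mul (2 / 3)
  refine ⟨_, ?_, h2⟩
  have hc : 0 < cos (θ / 2) := cos_pos_of_mem_Ioo ⟨by linarith [h.1, pi_pos], by linarith [h.2]⟩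
  have hq : 0 < 1 - (kk * sin (θ / 2)) ^ 2 := by
    have : (kk * sin (θ / 2)) ^ 2 < 1 := by
      have := kk_lt
      nlinarith [h1.1, h1.2, kk_pos]
    linarith
  have := kk_pos
  positivity

/-- the three branches -/
noncomputable def xA (θ : ℝ) : ℝ := 14 * cos (tau θ)
noncomputable def xB (θ : ℝ) : ℝ := 14 * cos (2 * π / 3 - tau θ)
noncomputable def xC (θ : ℝ) : ℝ := 14 * cos (2 * π / 3 + tau θ)

lemma cubic_cos (φ : ℝ) : (14 * cos φ) ^ 3 - 147 * (14 * cos φ) - 486 = 686 * cos (3 * φ) - 486 := by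
  rw [cos_three_mul]; ring

lemma xA_root {θ : ℝ} (h : θ ∈ Icc 0 π) : xA θ ^ 3 - 147 * xA θ - 486 = 200 * cos θ := by
  unfold xA; rw [cubic_cos, cos_three_tau h]

lemma xB_root {θ : ℝ} (h : θ ∈ Icc 0 π) : xB θ ^ 3 - 147 * xB θ - 486 = 200 * cos θ := by
  unfold xB; rw [cubic_cos]
  have : 3 * (2 * π / 3 - tau θ) = 2 * π - 3 * tau θ := by ring
  rw [this, cos_two_pi_sub, cos_three_tau h]

lemma xC_root {θ : ℝ} (h : θ ∈ Icc 0 π) : xC θ ^ 3 - 147 * xC θ - 486 = 200 * cos θ := by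
  unfold xC; rw [cubic_cos]
  have : 3 * (2 * π / 3 + tau θ) = 3 * tau θ + 2 * π := by ring
  rw [this, cos_add_two_pi, cos_three_tau h]

lemma x_sum (θ : ℝ) : xA θ + xB θ + xC θ = 0 := by
  unfold xA xB xC
  rw [cos_sub, cos_add]
  have : cos (2 * π / 3) = -1 / 2 := by
    have : 2 * π / 3 = π - π / 3 := by ring
    rw [this, cos_pi_sub, cos_pi_div_three]; norm_num
  rw [this]; ring

lemma x_sq (θ : ℝ) : xA θ ^ 2 + xB θ ^ 2 + xC θ ^ 2 = 294 := by
  unfold xA xB xC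
  rw [cos_sub, cos_add]
  have h1 : cos (2 * π / 3) = -1 / 2 := by
    have : 2 * π / 3 = π - π / 3 := by ring
    rw [this, cos_pi_sub, cos_pi_div_three]; norm_num
  have h2 : sin (2 * π / 3) ^ 2 = 3 / 4 := by
    rw [sin_sq, h1]; norm_num
  have h3 := sin_sq_add_cos_sq (tau θ)
  rw [h1]
  have : (14 * cos (tau θ)) ^ 2
      + (14 * (-1 / 2 * cos (tau θ) + sin (2 * π / 3) * sin (tau θ))) ^ 2
      + (14 * (-1 / 2 * cos (tau θ) - sin (2 * π / 3) * sin (tau θ))) ^ 2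
      = 294 * cos (tau θ) ^ 2 + 392 * sin (2 * π / 3) ^ 2 * sin (tau θ) ^ 2 := by ring
  rw [this, h2]; linarith

lemma x_e2 (θ : ℝ) : xA θ * xB θ + xA θ * xC θ + xB θ * xC θ = -147 := by
  have h1 := x_sum θ
  have h2 := x_sq θ
  have : (xA θ + xB θ + xC θ) ^ 2 = xA θ ^ 2 + xB θ ^ 2 + xC θ ^ 2
    + 2 * (xA θ * xB θ + xA θ * xC θ + xB θ * xC θ) := by ring
  rw [h1, h2] at this; linarith

lemma x_e3 {θ : ℝ} (h : θ ∈ Icc 0 π) : xA θ * xB θ * xC θ = 486 + 200 * cos θ := by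
  have h1 := x_sum θ
  have h2 := x_e2 θ
  have h3 := xA_root h
  have : xA θ ^ 3 = xA θ ^ 2 * (xA θ + xB θ + xC θ)
    - xA θ * (xA θ * xB θ + xA θ * xC θ + xB θ * xC θ) + xA θ * xB θ * xC θ := by ring
  rw [h1, h2] at this; linarith

/-- product identity -/
lemma x_prod {θ : ℝ} (h : θ ∈ Icc 0 π) (y : ℝ) :
    (xA θ - y) * (xB θ - y) * (xC θ - y) = 200 * cos θ - (y ^ 3 - 147 * y - 486) := by
  have h1 := x_sum θ
  have h2 := x_e2 θ
  have h3 := x_e3 h
  have : (xA θ - y) * (xB θ - y) * (xC θ - y) = xA θ * xB θ * xC θ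
    - y * (xA θ * xB θ + xA θ * xC θ + xB θ * xC θ) + y ^ 2 * (xA θ + xB θ + xC θ) - y ^ 3 := by
    ring
  rw [this, h1, h2, h3]; ring

lemma xA_anti : StrictAntiOn xA (Icc 0 π) := by
  intro a ha b hb hab
  have h1 := tau_mem ha
  have h2 := tau_mem hb
  have h3 := tau_strictMono ha hb hab
  unfold xA
  have := strictAntiOn_cos ⟨h1.1, by linarith [h1.2, pi_pos]⟩ ⟨h2.1, by linarith [h2.2, pi_pos]⟩ h3
  linarith

lemma xB_mono : StrictMonoOn xB (Icc 0 π) := by
  intro a ha b hb hab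
  have h1 := tau_mem ha
  have h2 := tau_mem hb
  have h3 := tau_strictMono ha hb hab
  have hp := pi_pos
  unfold xB
  have := strictAntiOn_cos (a := 2 * π / 3 - tau b) (b := 2 * π / 3 - tau a)
    ⟨by linarith [h2.2], by linarith [h2.1]⟩ ⟨by linarith [h1.2], by linarith [h1.1]⟩ (by linarith)
  linarith

lemma xC_anti : StrictAntiOn xC (Icc 0 π) := by
  intro a ha b hb hab
  have h1 := tau_mem ha
  have h2 := tau_mem hb
  have h3 := tau_strictMono ha hb hab
  have hp := pi_pos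
  unfold xC
  have := strictAntiOn_cos (a := 2 * π / 3 + tau a) (b := 2 * π / 3 + tau b)
    ⟨by linarith [h1.1], by linarith [h1.2]⟩ ⟨by linarith [h2.1], by linarith [h2.2]⟩ (by linarith)
  linarith

lemma cos_two_thirds : cos (2 * π / 3) = -1 / 2 := by
  have : 2 * π / 3 = π - π / 3 := by ring
  rw [this, cos_pi_sub, cos_pi_div_three]; norm_num

lemma xA_zero : xA 0 = 14 := by simp [xA, tau_zero]
lemma xB_zero : xB 0 = -7 := by simp only [xB, tau_zero, sub_zero, cos_two_thirds]; norm_num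
lemma xC_zero : xC 0 = -7 := by simp only [xC, tau_zero, add_zero, cos_two_thirds]; norm_num

lemma pi_mem : π ∈ Icc 0 π := ⟨pi_pos.le, le_rfl⟩

lemma root_pi {x : ℝ} (h : x ^ 3 - 147 * x - 486 = 200 * cos π) :
    x = -11 ∨ x = -2 ∨ x = 13 := by
  rw [cos_pi] at h
  have : (x + 11) * ((x + 2) * (x - 13)) = 0 := by linarith
  rcases mul_eq_zero.1 this with h | h
  · left; linarith
  · rcases mul_eq_zero.1 h with h | h
    · right; left; linarith
    · right; right; linarith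

lemma xA_pi : xA π = 13 := by
  have h := tau_mem pi_mem
  have h1 : 1 / 2 ≤ cos (tau π) := by
    rw [← cos_pi_div_three]
    exact cos_le_cos_of_nonneg_of_le_pi h.1 (by linarith [pi_pos]) h.2
  have h2 : 7 ≤ xA π := by unfold xA; linarith
  rcases root_pi (xA_root pi_mem) with h | h | h <;> linarith

lemma xB_pi : xB π = -2 := by
  have h := tau_mem pi_mem
  have hp := pi_pos
  have h1 : cos (2 * π / 3 - tau π) ≤ 1 / 2 := by
    rw [← cos_pi_div_three]
    exact cos_le_cos_of_nonneg_of_le_pi (by linarith) (by linarith [h.1]) (by linarith [h.2])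
  have h2 : -1 / 2 ≤ cos (2 * π / 3 - tau π) := by
    rw [← cos_two_thirds]
    exact cos_le_cos_of_nonneg_of_le_pi (by linarith [h.2]) (by linarith) (by linarith [h.1])
  have h3 : xB π ≤ 7 := by unfold xB; linarith
  have h4 : -7 ≤ xB π := by unfold xB; linarith
  rcases root_pi (xB_root pi_mem) with h | h | h <;> linarith

lemma xC_pi : xC π = -11 := by
  have h := tau_mem pi_mem
  have hp := pi_pos
  have h1 : cos (2 * π / 3 + tau π) ≤ -1 / 2 := by
    rw [← cos_two_thirds]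
    exact cos_le_cos_of_nonneg_of_le_pi (by linarith) (by linarith [h.2]) (by linarith [h.1])
  have h3 : xC π ≤ -7 := by unfold xC; linarith
  rcases root_pi (xC_root pi_mem) with h | h | h <;> linarith

lemma xA_cont : Continuous xA := by unfold xA; have := tau_continuous; fun_prop
lemma xB_cont : Continuous xB := by unfold xB; have := tau_continuous; fun_prop
lemma xC_cont : Continuous xC := by unfold xC; have := tau_continuous; fun_prop

lemma image_of_mono {f : ℝ → ℝ} (hf : Continuous f) (hm : StrictMonoOn f (Icc 0 π)) :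
    f '' Ioo 0 π = Ioo (f 0) (f π) := by
  apply Subset.antisymm
  · rintro _ ⟨x, hx, rfl⟩
    exact ⟨hm ⟨le_rfl, pi_pos.le⟩ (Ioo_subset_Icc_self hx) hx.1,
      hm (Ioo_subset_Icc_self hx) pi_mem hx.2⟩
  · exact intermediate_value_Ioo pi_pos.le hf.continuousOn

lemma image_of_anti {f : ℝ → ℝ} (hf : Continuous f) (hm : StrictAntiOn f (Icc 0 π)) :
    f '' Ioo 0 π = Ioo (f π) (f 0) := by
  apply Subset.antisymm
  · rintro _ ⟨x, hx, rfl⟩
    exact ⟨hm (Ioo_subset_Icc_self hx) pi_mem hx.2,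
      hm ⟨le_rfl, pi_pos.le⟩ (Ioo_subset_Icc_self hx) hx.1⟩
  · exact intermediate_value_Ioo' pi_pos.le hf.continuousOn

lemma xA_image : xA '' Ioo 0 π = Ioo 13 14 := by
  rw [image_of_anti xA_cont xA_anti, xA_pi, xA_zero]
lemma xB_image : xB '' Ioo 0 π = Ioo (-7) (-2) := by
  rw [image_of_mono xB_cont xB_mono, xB_pi, xB_zero]
lemma xC_image : xC '' Ioo 0 π = Ioo (-11) (-7) := by
  rw [image_of_anti xC_cont xC_anti, xC_pi, xC_zero]

/-- the density of the equilibrium measure -/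
noncomputable def rho (γ x : ℝ) : ℝ :=
  1 / π * (|x - γ| / √(|x - -11| * |x - -2| * (|x - 13| * |x - 14|)))

lemma rho_mul_deriv {x x' θ : ℝ} (hθ : θ ∈ Ioo 0 π)
    (hroot : x ^ 3 - 147 * x - 486 = 200 * cos θ)
    (hder : (3 * x ^ 2 - 147) * x' = -200 * sin θ) :
    |x'| * rho 7 x = 1 / (3 * π) := by
  have hs : 0 < sin θ := sin_pos_of_mem_Ioo hθ
  have hp := pi_pos
  have hne : (3 * x ^ 2 - 147) * x' ≠ 0 := by
    rw [hder]; have := hs.ne'; simp [this]
  have e0 : 3 * x ^ 2 - 147 = 3 * (x - 7) * (x + 7) := by ring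
  rw [e0] at hne hder
  have h7 : x - 7 ≠ 0 := by intro h; apply hne; rw [h]; ring
  have h7' : x + 7 ≠ 0 := by intro h; apply hne; rw [h]; ring
  have a7 : 0 < |x - 7| := abs_pos.2 h7
  have a7' : 0 < |x + 7| := abs_pos.2 h7'
  have hx' : |x'| = 200 * sin θ / (3 * |x - 7| * |x + 7|) := by
    have : |3 * (x - 7) * (x + 7) * x'| = 200 * sin θ := by
      rw [hder, abs_mul, abs_of_pos hs]; norm_num
    rw [abs_mul, abs_mul, abs_mul, abs_of_pos (by norm_num : (0 : ℝ) < 3)] at this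
    rw [eq_div_iff (by positivity), ← this]; ring
  have hprod : |x - -11| * |x - -2| * (|x - 13| * |x - 14|)
      = (200 * sin θ / |x + 7|) ^ 2 := by
    rw [div_pow, eq_div_iff (by positivity), ← abs_mul, ← abs_mul, ← abs_mul, ← abs_pow, ← abs_mul]
    have e1 : (x - -11) * (x - -2) * ((x - 13) * (x - 14)) * (x + 7) ^ 2
        = -(200 * sin θ) ^ 2 := by
      have h1 : (x - -11) * (x - -2) * (x - 13) = 200 * cos θ + 200 := by linarith
      have h2 : (x + 7) ^ 2 * (x - 14) = 200 * cos θ - 200 := by linarith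
      calc (x - -11) * (x - -2) * ((x - 13) * (x - 14)) * (x + 7) ^ 2
          = ((x - -11) * (x - -2) * (x - 13)) * ((x + 7) ^ 2 * (x - 14)) := by ring
        _ = (200 * cos θ + 200) * (200 * cos θ - 200) := by rw [h1, h2]
        _ = -(200 * sin θ) ^ 2 := by
          have := sin_sq_add_cos_sq θ
          nlinarith
    rw [e1, abs_neg, abs_of_nonneg (by positivity)]
  unfold rho
  rw [hprod, Real.sqrt_sq (by positivity), hx']
  field_simp

lemma deriv_of_root {f : ℝ → ℝ} {θ d : ℝ} (hθ : θ ∈ Ioo 0 π) (hf : HasDerivAt f d θ)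
    (hroot : ∀ θ ∈ Icc 0 π, f θ ^ 3 - 147 * f θ - 486 = 200 * cos θ) :
    (3 * f θ ^ 2 - 147) * d = -200 * sin θ := by
  have h1 : HasDerivAt (fun θ => f θ ^ 3 - 147 * f θ - 486) ((3 * f θ ^ 2 - 147) * d) θ := by
    have h := ((hf.pow 3).sub (hf.const_mul 147)).sub_const 486
    have e : (3 * f θ ^ 2 - 147) * d = ((3 : ℕ) : ℝ) * f θ ^ (3 - 1) * d - 147 * d := by
      norm_num; ring
    rw [e]
    exact h
  have h2 : HasDerivAt (fun θ : ℝ => 200 * cos θ) (200 * -sin θ) θ := (hasDerivAt_cos θ).const_mul 200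
  have h3 : HasDerivAt (fun θ => f θ ^ 3 - 147 * f θ - 486) (200 * -sin θ) θ := by
    refine h2.congr_of_eventuallyEq ?_
    filter_upwards [Ioo_mem_nhds hθ.1 hθ.2] with t ht
    exact hroot t (Ioo_subset_Icc_self ht)
  have := h1.unique h3
  linarith

lemma xA_diff {θ : ℝ} (h : θ ∈ Ioo 0 π) : ∃ d, HasDerivAt xA d θ := by
  obtain ⟨d, _, hd⟩ := tau_hasDerivAt h
  exact ⟨_, hd.cos.const_mul 14⟩

lemma xB_diff {θ : ℝ} (h : θ ∈ Ioo 0 π) : ∃ d, HasDerivAt xB d θ := by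
  obtain ⟨d, _, hd⟩ := tau_hasDerivAt h
  exact ⟨_, (hd.const_sub (2 * π / 3)).cos.const_mul 14⟩

lemma xC_diff {θ : ℝ} (h : θ ∈ Ioo 0 π) : ∃ d, HasDerivAt xC d θ := by
  obtain ⟨d, _, hd⟩ := tau_hasDerivAt h
  exact ⟨_, (hd.const_add (2 * π / 3)).cos.const_mul 14⟩

end Pool.Agent.Lib.MP_7fabd3_an
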