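import Mathlib
import Pool.Agent.Lib.MP_7fabd3_an.Det
import Pool.Agent.Lib.MP_7fabd3_an.Param

set_option autoImplicit false

namespace Pool.Agent.Lib.MP_7fabd3_an

open Set Real MeasureTheory
open scoped ENNReal

/-- the equilibrium measure of `K0` -/
noncomputable def mu7 : Measure ℝ :=
  (volume.restrict K0).withDensity (fun x => ENNReal.ofReal (rho 7 x))

lemma rho_meas (γ : ℝ) : Measurable (rho γ) := by unfold rho; fun_prop

lemma K0_meas : MeasurableSet K0 := measurableSet_Icc.union measurableSet_Icc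

lemma branch {f : ℝ → ℝ} (hinj : InjOn f (Ioo 0 π))
    (hd : ∀ θ ∈ Ioo 0 π, ∃ d, HasDerivAt f d θ)
    (hroot : ∀ θ ∈ Icc 0 π, f θ ^ 3 - 147 * f θ - 486 = 200 * cos θ)
    (g : ℝ → ℝ≥0∞) (hg : Measurable g) :
    ∫⁻ x in f '' Ioo 0 π, ENNReal.ofReal (rho 7 x) * g x
      = ENNReal.ofReal (1 / (3 * π)) * ∫⁻ θ in Ioo 0 π, g (f θ) := by
  have hd' : ∀ θ ∈ Ioo 0 π, HasDerivWithinAt f (deriv f θ) (Ioo 0 π) θ := by
    intro θ hθ
    obtain ⟨d, hd⟩ := hd θ hθ
    rw [hd.deriv]; exact hd.hasDerivWithinAt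
  rw [lintegral_image_eq_lintegral_abs_deriv_mul measurableSet_Ioo hd' hinj]
  rw [← lintegral_const_mul' _ _ ENNReal.ofReal_ne_top]
  refine setLIntegral_congr_fun measurableSet_Ioo (fun θ hθ => ?_)
  obtain ⟨d, hd⟩ := hd θ hθ
  have h1 := deriv_of_root hθ hd hroot
  have h2 := rho_mul_deriv hθ (hroot θ (Ioo_subset_Icc_self hθ)) h1
  rw [← mul_assoc, ← ENNReal.ofReal_mul (abs_nonneg _), hd.deriv, h2]

lemma K0_ae : K0 =ᵐ[volume] (xA '' Ioo 0 π ∪ (xB '' Ioo 0 π ∪ xC '' Ioo 0 π) : Set ℝ) := by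
  rw [xA_image, xB_image, xC_image]
  have h : ∀ x : ℝ, x ∉ ({-11, -7, -2, 13, 14} : Set ℝ) →
      (x ∈ K0 ↔ x ∈ Ioo (13 : ℝ) 14 ∪ (Ioo (-7 : ℝ) (-2) ∪ Ioo (-11 : ℝ) (-7))) := by
    intro x hx
    simp only [mem_insert_iff, mem_singleton_iff, not_or] at hx
    obtain ⟨h1, h2, h3, h4, h5⟩ := hx
    unfold K0
    simp only [mem_union, mem_Icc, mem_Ioo]
    constructor
    · rintro (⟨a, b⟩ | ⟨a, b⟩)
      · rcases lt_or_gt_of_ne h2 with h | h
        · right; right; exact ⟨lt_of_le_of_ne a (Ne.symm h1), h⟩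
        · right; left; exact ⟨h, lt_of_le_of_ne b h3⟩
      · left; exact ⟨lt_of_le_of_ne a (Ne.symm h4), lt_of_le_of_ne b h5⟩
    · rintro (⟨a, b⟩ | ⟨a, b⟩ | ⟨a, b⟩)
      · right; exact ⟨a.le, b.le⟩
      · left; exact ⟨by linarith, b.le⟩
      · left; exact ⟨a.le, by linarith⟩
  have hnull : volume ({-11, -7, -2, 13, 14} : Set ℝ) = 0 :=
    (Set.toFinite _).measure_zero _
  have : ∀ᵐ x : ℝ, x ∉ ({-11, -7, -2, 13, 14} : Set ℝ) := measure_eq_zero_iff_ae_notMem.1 hnull
  filter_upwards [this] with x hx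
  exact propext (h x hx)

lemma lintegral_mu7 (g : ℝ → ℝ≥0∞) (hg : Measurable g) :
    ∫⁻ x, g x ∂mu7 = ENNReal.ofReal (1 / (3 * π)) * ((∫⁻ θ in Ioo 0 π, g (xA θ))
      + ((∫⁻ θ in Ioo 0 π, g (xB θ)) + (∫⁻ θ in Ioo 0 π, g (xC θ)))) := by
  unfold mu7
  rw [lintegral_withDensity_eq_lintegral_mul _ ((rho_meas 7).ennreal_ofReal) hg,
    setLIntegral_congr K0_ae]
  have mA : MeasurableSet (xA '' Ioo 0 π) := by rw [xA_image]; exact measurableSet_Ioo
  have mB : MeasurableSet (xB '' Ioo 0 π) := by rw [xB_image]; exact measurableSet_Ioo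
  have mC : MeasurableSet (xC '' Ioo 0 π) := by rw [xC_image]; exact measurableSet_Ioo
  have d1 : Disjoint (xB '' Ioo 0 π) (xC '' Ioo 0 π) := by
    rw [xB_image, xC_image, Set.disjoint_left]
    rintro x ⟨a, b⟩ ⟨c, d⟩; linarith
  have d2 : Disjoint (xA '' Ioo 0 π) (xB '' Ioo 0 π ∪ xC '' Ioo 0 π) := by
    rw [xA_image, xB_image, xC_image, Set.disjoint_left]
    rintro x ⟨a, b⟩ (⟨c, d⟩ | ⟨c, d⟩) <;> linarith
  rw [lintegral_union (mB.union mC) d2, lintegral_union mC d1]
  have hA := branch (xA_anti.injOn.mono Ioo_subset_Icc_self) (fun θ h => xA_diff h)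
    (fun θ h => xA_root h) g hg
  have hB := branch (xB_mono.injOn.mono Ioo_subset_Icc_self) (fun θ h => xB_diff h)
    (fun θ h => xB_root h) g hg
  have hC := branch (xC_anti.injOn.mono Ioo_subset_Icc_self) (fun θ h => xC_diff h)
    (fun θ h => xC_root h) g hg
  simp only [Pi.mul_apply]
  rw [hA, hB, hC]; ring

lemma mu7_eq : mu7 = ENNReal.ofReal (1 / (3 * π)) •
    ((volume.restrict (Ioo 0 π)).map xA + ((volume.restrict (Ioo 0 π)).map xB
      + (volume.restrict (Ioo 0 π)).map xC)) := by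
  refine Measure.ext_of_lintegral _ (fun g hg => ?_)
  rw [lintegral_mu7 g hg, lintegral_smul_measure, lintegral_add_measure, lintegral_add_measure,
    lintegral_map hg xA_cont.measurable, lintegral_map hg xB_cont.measurable,
    lintegral_map hg xC_cont.measurable]
  rfl

instance : IsProbabilityMeasure mu7 := by
  constructor
  rw [← setLIntegral_one, Measure.restrict_univ, lintegral_mu7 _ measurable_const]
  simp only [lintegral_const, Measure.restrict_apply MeasurableSet.univ, univ_inter, one_mul,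
    Real.volume_Ioo, sub_zero]
  have hp := pi_pos
  rw [← ENNReal.ofReal_add hp.le hp.le, ← ENNReal.ofReal_add hp.le (by positivity),
    ← ENNReal.ofReal_mul (by positivity), ← ENNReal.ofReal_one]
  congr 1; field_simp; ring

lemma mu7_compl : mu7 K0ᶜ = 0 := by
  unfold mu7
  refine (withDensity_absolutelyContinuous _ _) ?_
  rw [Measure.restrict_apply K0_meas.compl]; simp

lemma mu7_integrable {g : ℝ → ℝ} (hg : Measurable g)
    (hA : IntegrableOn (fun θ => g (xA θ)) (Ioo 0 π))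
    (hB : IntegrableOn (fun θ => g (xB θ)) (Ioo 0 π))
    (hC : IntegrableOn (fun θ => g (xC θ)) (Ioo 0 π)) : Integrable g mu7 := by
  rw [mu7_eq]
  refine Integrable.smul_measure ?_ ENNReal.ofReal_ne_top
  refine Integrable.add_measure ?_ (Integrable.add_measure ?_ ?_)
  · exact (integrable_map_measure hg.aestronglyMeasurable xA_cont.measurable.aemeasurable).2 hA
  · exact (integrable_map_measure hg.aestronglyMeasurable xB_cont.measurable.aemeasurable).2 hB
  · exact (integrable_map_measure hg.aestronglyMeasurable xC_cont.measurable.aemeasurable).2 hC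

lemma mu7_integral {g : ℝ → ℝ} (hg : Measurable g)
    (hA : IntegrableOn (fun θ => g (xA θ)) (Ioo 0 π))
    (hB : IntegrableOn (fun θ => g (xB θ)) (Ioo 0 π))
    (hC : IntegrableOn (fun θ => g (xC θ)) (Ioo 0 π)) :
    ∫ x, g x ∂mu7 = 1 / (3 * π) * ∫ θ in Ioo 0 π, (g (xA θ) + (g (xB θ) + g (xC θ))) := by
  rw [mu7_eq, integral_smul_measure]
  have iA := (integrable_map_measure hg.aestronglyMeasurable
    xA_cont.measurable.aemeasurable (μ := volume.restrict (Ioo 0 π))).2 hA
  have iB := (integrable_map_measure hg.aestronglyMeasurable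
    xB_cont.measurable.aemeasurable (μ := volume.restrict (Ioo 0 π))).2 hB
  have iC := (integrable_map_measure hg.aestronglyMeasurable
    xC_cont.measurable.aemeasurable (μ := volume.restrict (Ioo 0 π))).2 hC
  rw [integral_add_measure iA (iB.add_measure iC), integral_add_measure iB iC,
    integral_map xA_cont.measurable.aemeasurable hg.aestronglyMeasurable,
    integral_map xB_cont.measurable.aemeasurable hg.aestronglyMeasurable,
    integral_map xC_cont.measurable.aemeasurable hg.aestronglyMeasurable,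
    integral_add hA (show Integrable (fun θ => g (xB θ) + g (xC θ)) _ from hB.add hC),
    integral_add hB hC]
  rw [ENNReal.toReal_ofReal (by have := pi_pos; positivity)]
  rfl

end Pool.Agent.Lib.MP_7fabd3_an
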