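import Mathlib
import Pool.Agent.Lib.MP_7fabd3_an.Meas

set_option autoImplicit false

namespace Pool.Agent.Lib.MP_7fabd3_an

open Set Real MeasureTheory
open scoped ENNReal

lemma norm_factor {z : ℂ} (hz : z ≠ 0) {w : ℝ} (hw : (w : ℂ) = 100 * (z + z⁻¹)) (θ : ℝ) :
    |200 * cos θ - w| = 100 * (‖circleMap 0 1 θ - z‖ * ‖circleMap 0 1 θ - z⁻¹‖) := by
  have he : circleMap 0 1 θ = Complex.exp (θ * Complex.I) := by simp [circleMap]
  have hn : ‖circleMap 0 1 θ‖ = 1 := by simp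
  have hne : circleMap 0 1 θ ≠ 0 := by intro h; rw [h] at hn; simp at hn
  set e := circleMap 0 1 θ with hedef
  have hcos : ((2 * cos θ : ℝ) : ℂ) = e + e⁻¹ := by
    rw [he, ← Complex.exp_neg]
    push_cast
    rw [Complex.cos]
    ring_nf
  have h1 : ((200 * cos θ - w : ℝ) : ℂ) = 100 * (e⁻¹ * ((e - z) * (e - z⁻¹))) := by
    have h2 : ((200 * cos θ - w : ℝ) : ℂ) = 100 * ((2 * cos θ : ℝ) : ℂ) - (w : ℂ) := by
      push_cast; ring
    rw [h2, hcos, hw]
    field_simp
    ring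
  have h3 : |200 * cos θ - w| = ‖((200 * cos θ - w : ℝ) : ℂ)‖ := by
    rw [Complex.norm_real, Real.norm_eq_abs]
  rw [h3, h1, norm_mul, norm_mul, norm_mul, norm_inv, hn]
  norm_num

lemma countable_cos (w : ℝ) : {θ : ℝ | 200 * cos θ - w = 0}.Countable := by
  by_cases h : ∃ θ₀, 200 * cos θ₀ - w = 0
  · obtain ⟨θ₀, h0⟩ := h
    refine Set.Countable.mono (s₂ := range (fun k : ℤ => 2 * k * π + θ₀)
      ∪ range (fun k : ℤ => 2 * k * π - θ₀)) ?_ ((countable_range _).union (countable_range _))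
    intro θ hθ
    have : cos θ₀ = cos θ := by
      have h1 : 200 * cos θ - w = 0 := hθ
      linarith
    obtain ⟨k, hk | hk⟩ := cos_eq_cos_iff.1 this
    · left; exact ⟨k, hk.symm⟩
    · right; exact ⟨k, hk.symm⟩
  · push Not at h
    have : {θ : ℝ | 200 * cos θ - w = 0} = ∅ := by
      ext θ; simp [h θ]
    rw [this]; exact countable_empty

lemma ae_ne (w : ℝ) (s : Set ℝ) : ∀ᵐ θ ∂(volume.restrict s), 200 * cos θ - w ≠ 0 := by
  have h : volume {θ : ℝ | 200 * cos θ - w = 0} = 0 := (countable_cos w).measure_zero _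
  exact ae_restrict_of_ae (measure_eq_zero_iff_ae_notMem.1 h)

lemma log_eq_ae {z : ℂ} (hz : z ≠ 0) {w : ℝ} (hw : (w : ℂ) = 100 * (z + z⁻¹)) (s : Set ℝ) :
    (fun θ => log |200 * cos θ - w|) =ᵐ[volume.restrict s]
    fun θ => log 100 + (log ‖circleMap 0 1 θ - z‖ + log ‖circleMap 0 1 θ - z⁻¹‖) := by
  filter_upwards [ae_ne w s] with θ hθ
  have h1 := norm_factor hz hw θ
  have h2 : |200 * cos θ - w| ≠ 0 := abs_ne_zero.2 hθ
  have h3 : ‖circleMap 0 1 θ - z‖ ≠ 0 := by
    intro h; rw [h] at h1; simp at h1; exact hθ h1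
  have h4 : ‖circleMap 0 1 θ - z⁻¹‖ ≠ 0 := by
    intro h; rw [h] at h1; simp at h1; exact hθ h1
  rw [h1, log_mul (by norm_num) (mul_ne_zero h3 h4), log_mul h3 h4]

lemma log_integrable_two_pi {z : ℂ} (hz : z ≠ 0) {w : ℝ} (hw : (w : ℂ) = 100 * (z + z⁻¹)) :
    IntervalIntegrable (fun θ => log |200 * cos θ - w|) volume 0 (2 * π) := by
  have h1 := circleIntegrable_log_norm_sub_const (a := z) (c := 0) 1
  have h2 := circleIntegrable_log_norm_sub_const (a := z⁻¹) (c := 0) 1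
  have h3 : IntervalIntegrable (fun θ => log 100 + (log ‖circleMap 0 1 θ - z‖
      + log ‖circleMap 0 1 θ - z⁻¹‖)) volume 0 (2 * π) :=
    intervalIntegrable_const.add (h1.add h2)
  exact h3.congr_ae (log_eq_ae hz hw _).symm

lemma log_integral_two_pi {z : ℂ} (hz : z ≠ 0) {w : ℝ} (hw : (w : ℂ) = 100 * (z + z⁻¹)) :
    ∫ θ in (0 : ℝ)..(2 * π), log |200 * cos θ - w|
      = 2 * π * (log 100 + (posLog ‖z‖ + posLog ‖z⁻¹‖)) := by
  have h1 := circleIntegrable_log_norm_sub_const (a := z) (c := 0) 1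
  have h2 := circleIntegrable_log_norm_sub_const (a := z⁻¹) (c := 0) 1
  have e1 := circleAverage_log_norm_sub_const_eq_posLog (a := z)
  have e2 := circleAverage_log_norm_sub_const_eq_posLog (a := z⁻¹)
  have hp := pi_pos
  rw [circleAverage_def, smul_eq_mul, inv_mul_eq_iff_eq_mul₀ (by positivity)] at e1 e2
  have h3 : ∫ θ in (0 : ℝ)..(2 * π), log |200 * cos θ - w|
      = ∫ θ in (0 : ℝ)..(2 * π), (log 100 + (log ‖circleMap 0 1 θ - z‖
      + log ‖circleMap 0 1 θ - z⁻¹‖)) := by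
    apply intervalIntegral.integral_congr_ae_restrict
    exact log_eq_ae hz hw _
  have h1' : IntervalIntegrable (fun θ => log ‖circleMap 0 1 θ - z‖) volume 0 (2 * π) := h1
  have h2' : IntervalIntegrable (fun θ => log ‖circleMap 0 1 θ - z⁻¹‖) volume 0 (2 * π) := h2
  have h12 : IntervalIntegrable (fun θ => log ‖circleMap 0 1 θ - z‖
      + log ‖circleMap 0 1 θ - z⁻¹‖) volume 0 (2 * π) := h1'.add h2'
  rw [h3, intervalIntegral.integral_add intervalIntegrable_const h12,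
    intervalIntegral.integral_add h1' h2', e1, e2, intervalIntegral.integral_const]
  simp only [smul_eq_mul]
  ring

lemma log_integrable {z : ℂ} (hz : z ≠ 0) {w : ℝ} (hw : (w : ℂ) = 100 * (z + z⁻¹)) :
    IntegrableOn (fun θ => log |200 * cos θ - w|) (Ioo 0 π) := by
  have h := log_integrable_two_pi hz hw
  have h2 := (intervalIntegrable_iff_integrableOn_Ioo_of_le (by positivity)).1 h
  exact h2.mono_set (Ioo_subset_Ioo_right (by linarith [pi_pos]))

lemma log_integral {z : ℂ} (hz : z ≠ 0) {w : ℝ} (hw : (w : ℂ) = 100 * (z + z⁻¹)) :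
    ∫ θ in Ioo 0 π, log |200 * cos θ - w| = π * (log 100 + (posLog ‖z‖ + posLog ‖z⁻¹‖)) := by
  have h := log_integrable_two_pi hz hw
  have hp := pi_pos
  have h1 : IntervalIntegrable (fun θ => log |200 * cos θ - w|) volume 0 π :=
    h.mono_set (by
      rw [uIcc_of_le hp.le, uIcc_of_le (by positivity)]
      exact Icc_subset_Icc_right (by linarith))
  have h2 : IntervalIntegrable (fun θ => log |200 * cos θ - w|) volume π (2 * π) :=
    h.mono_set (by
      rw [uIcc_of_le (by linarith), uIcc_of_le (by positivity)]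
      exact Icc_subset_Icc_left (by linarith))
  have h3 := intervalIntegral.integral_add_adjacent_intervals h1 h2
  have h4 : ∫ θ in π..(2 * π), log |200 * cos θ - w| = ∫ θ in (0 : ℝ)..π, log |200 * cos θ - w| := by
    have := intervalIntegral.integral_comp_sub_left (a := 0) (b := π)
      (fun θ => log |200 * cos θ - w|) (2 * π)
    have e1 : 2 * π - π = π := by ring
    rw [e1, sub_zero] at this
    rw [← this]
    simp [cos_two_pi_sub]
  rw [h4, log_integral_two_pi hz hw] at h3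
  rw [← integral_Ioc_eq_integral_Ioo, ← intervalIntegral.integral_of_le hp.le]
  linarith

lemma x_abs_le (f : ℝ) (c : ℝ) (h : f = 14 * cos c) (y : ℝ) : log |f - y| ≤ log (15 + |y|) := by
  have h1 : |f - y| ≤ 14 + |y| := by
    calc |f - y| ≤ |f| + |y| := abs_sub _ _
      _ ≤ 14 + |y| := by
        have : |f| ≤ 14 := by
          rw [h, abs_mul]
          have := abs_cos_le_one c
          norm_num; linarith
        linarith
  rcases eq_or_lt_of_le (abs_nonneg (f - y)) with h2 | h2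
  · rw [← h2, log_zero]
    exact log_nonneg (by linarith [abs_nonneg y])
  · exact log_le_log h2 (by linarith)

lemma sum_log_ae (y : ℝ) : ∀ᵐ θ ∂(volume.restrict (Ioo 0 π)),
    log |xA θ - y| + (log |xB θ - y| + log |xC θ - y|)
      = log |200 * cos θ - (y ^ 3 - 147 * y - 486)| := by
  filter_upwards [ae_ne (y ^ 3 - 147 * y - 486) (Ioo 0 π),
    ae_restrict_mem measurableSet_Ioo] with θ h1 h2
  have h3 := x_prod (Ioo_subset_Icc_self h2) y
  rw [← h3] at h1 ⊢
  have hA : xA θ - y ≠ 0 := fun h => h1 (by rw [h]; ring)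
  have hB : xB θ - y ≠ 0 := fun h => h1 (by rw [h]; ring)
  have hC : xC θ - y ≠ 0 := fun h => h1 (by rw [h]; ring)
  rw [abs_mul, abs_mul, log_mul (by positivity) (by positivity),
    log_mul (by positivity) (by positivity)]
  ring

section
variable {z : ℂ} (hz : z ≠ 0) {y : ℝ}
  (hw : ((y ^ 3 - 147 * y - 486 : ℝ) : ℂ) = 100 * (z + z⁻¹))

lemma bounds_ae (y : ℝ) : ∀ᵐ θ ∂(volume.restrict (Ioo 0 π)),
    (|(log |xA θ - y|)| ≤
      |(log |200 * cos θ - (y ^ 3 - 147 * y - 486)|)| + 2 * log (15 + |y|)) ∧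
    (|(log |xB θ - y|)| ≤
      |(log |200 * cos θ - (y ^ 3 - 147 * y - 486)|)| + 2 * log (15 + |y|)) ∧
    (|(log |xC θ - y|)| ≤
      |(log |200 * cos θ - (y ^ 3 - 147 * y - 486)|)| + 2 * log (15 + |y|)) := by
  filter_upwards [sum_log_ae y] with θ h
  have hA := x_abs_le (xA θ) _ rfl y
  have hB := x_abs_le (xB θ) _ rfl y
  have hC := x_abs_le (xC θ) _ rfl y
  have hM : 0 ≤ log (15 + |y|) := log_nonneg (by linarith [abs_nonneg y])
  have h5 := neg_abs_le (log |200 * cos θ - (y ^ 3 - 147 * y - 486)|)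
  have h6 := le_abs_self (log |200 * cos θ - (y ^ 3 - 147 * y - 486)|)
  have h7 := abs_nonneg (log |200 * cos θ - (y ^ 3 - 147 * y - 486)|)
  refine ⟨?_, ?_, ?_⟩ <;> rw [abs_le] <;> constructor <;> linarith

include hz hw

lemma term_integrable {f : ℝ → ℝ} (hf : Continuous f)
    (hb : ∀ᵐ θ ∂(volume.restrict (Ioo 0 π)), |(log |f θ - y|)| ≤
      |(log |200 * cos θ - (y ^ 3 - 147 * y - 486)|)| + 2 * log (15 + |y|)) :
    IntegrableOn (fun θ => log |f θ - y|) (Ioo 0 π) := by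
  have h1 := (log_integrable hz hw).abs
  have h2 : IntegrableOn (fun _ : ℝ => 2 * log (15 + |y|)) (Ioo 0 π) :=
    integrableOn_const (by simp) (by exact enorm_ne_top)
  refine Integrable.mono' (h1.add h2) ?_ ?_
  · exact (measurable_log.comp (by fun_prop : Measurable fun θ => |f θ - y|)).aestronglyMeasurable
  · filter_upwards [hb] with θ h
    simpa using h

lemma intA : IntegrableOn (fun θ => log |xA θ - y|) (Ioo 0 π) :=
  term_integrable hz hw xA_cont ((bounds_ae y).mono fun _ h => h.1)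
lemma intB : IntegrableOn (fun θ => log |xB θ - y|) (Ioo 0 π) :=
  term_integrable hz hw xB_cont ((bounds_ae y).mono fun _ h => h.2.1)
lemma intC : IntegrableOn (fun θ => log |xC θ - y|) (Ioo 0 π) :=
  term_integrable hz hw xC_cont ((bounds_ae y).mono fun _ h => h.2.2)

lemma pot_integrable : Integrable (fun x => log |x - y|) mu7 :=
  mu7_integrable (measurable_log.comp (by fun_prop)) (intA hz hw) (intB hz hw) (intC hz hw)

lemma pot_value : ∫ x, log |x - y| ∂mu7 = (log 100 + (posLog ‖z‖ + posLog ‖z⁻¹‖)) / 3 := by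
  rw [mu7_integral (g := fun x => log |x - y|) (measurable_log.comp (by fun_prop))
    (intA hz hw) (intB hz hw) (intC hz hw)]
  rw [integral_congr_ae (sum_log_ae y), log_integral hz hw]
  have := pi_pos
  field_simp

end

/-- on `K0` the potential is constant -/
lemma exists_z_of_mem {y : ℝ} (hy : |y ^ 3 - 147 * y - 486| ≤ 200) :
    ∃ z : ℂ, z ≠ 0 ∧ ((y ^ 3 - 147 * y - 486 : ℝ) : ℂ) = 100 * (z + z⁻¹) ∧ ‖z‖ = 1 := by
  obtain ⟨h1, h2⟩ := abs_le.1 hy
  set ψ := arccos ((y ^ 3 - 147 * y - 486) / 200) with hψ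
  have hc : cos ψ = (y ^ 3 - 147 * y - 486) / 200 := cos_arccos (by linarith) (by linarith)
  refine ⟨Complex.exp (ψ * Complex.I), Complex.exp_ne_zero _, ?_, by simp [Complex.norm_exp]⟩
  rw [← Complex.exp_neg]
  have : ((2 * cos ψ : ℝ) : ℂ) = Complex.exp (ψ * Complex.I) + Complex.exp (-(ψ * Complex.I)) := by
    push_cast
    rw [Complex.cos]
    ring_nf
  rw [← this, hc]; push_cast; ring

lemma exists_z_of_lt {y : ℝ} (u : ℝ) (hu : 1 ≤ u)
    (hy : y ^ 3 - 147 * y - 486 = -100 * (u + 1 / u)) :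
    ∃ z : ℂ, z ≠ 0 ∧ ((y ^ 3 - 147 * y - 486 : ℝ) : ℂ) = 100 * (z + z⁻¹) ∧ ‖z‖ = u := by
  refine ⟨((-u : ℝ) : ℂ), ?_, ?_, ?_⟩
  · rw [Ne, Complex.ofReal_eq_zero]; linarith
  · rw [hy]; push_cast
    have : (u : ℂ) ≠ 0 := by rw [Ne, Complex.ofReal_eq_zero]; linarith
    field_simp
    ring
  · rw [Complex.norm_real, norm_neg, Real.norm_eq_abs, abs_of_nonneg (by linarith)]

lemma pot_on_K {y : ℝ} (hy : |y ^ 3 - 147 * y - 486| ≤ 200) :
    Integrable (fun x => log |x - y|) mu7 ∧ ∫ x, log |x - y| ∂mu7 = log 100 / 3 := by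
  obtain ⟨z, hz, hw, hn⟩ := exists_z_of_mem hy
  refine ⟨pot_integrable hz hw, ?_⟩
  rw [pot_value hz hw, norm_inv, hn]; simp

lemma pot_off_K {y : ℝ} (u : ℝ) (hu : 1 ≤ u)
    (hy : y ^ 3 - 147 * y - 486 = -100 * (u + 1 / u)) :
    Integrable (fun x => log |x - y|) mu7 ∧
      ∫ x, log |x - y| ∂mu7 = (log 100 + log u) / 3 := by
  obtain ⟨z, hz, hw, hn⟩ := exists_z_of_lt u hu hy
  refine ⟨pot_integrable hz hw, ?_⟩
  have h1 : posLog ‖z‖ = log u := by
    rw [hn]; exact posLog_eq_log (by rw [abs_of_nonneg (by linarith)]; exact hu)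
  have h2 : posLog ‖z⁻¹‖ = 0 := by
    rw [norm_inv, hn, posLog_eq_zero_iff, abs_of_nonneg (by positivity)]
    exact inv_le_one_of_one_le₀ hu
  rw [pot_value hz hw, h1, h2, add_zero]

end Pool.Agent.Lib.MP_7fabd3_an
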