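import Mathlib
import Pool.Agent.Lib.MP_7fabd3_an.Defs
import Pool.Agent.Lib.MP_7fabd3_an.Pot
import Pool.Agent.Lib.MP_7fabd3_an.EnergyBound

set_option autoImplicit false

namespace Pool.Agent.Lib.MP_7fabd3_an

open Set MeasureTheory
open scoped ENNReal

/-- positive part of the kernel -/
noncomputable def kp (p : ℝ × ℝ) : ℝ≥0∞ := (-ENNReal.log (edist p.1 p.2)).toENNReal
/-- negative part of the kernel -/
noncomputable def kn (p : ℝ × ℝ) : ℝ≥0∞ := (ENNReal.log (edist p.1 p.2)).toENNReal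

lemma kp_meas : Measurable kp := by unfold kp; fun_prop
lemma kn_meas : Measurable kn := by unfold kn; fun_prop

lemma log_edist {x y : ℝ} (h : x ≠ y) : ENNReal.log (edist x y) = ((Real.log |x - y| : ℝ) : EReal) := by
  rw [edist_dist, Real.dist_eq, ENNReal.log_ofReal_of_pos (abs_pos.2 (sub_ne_zero.2 h))]

lemma kp_of_ne {x y : ℝ} (h : x ≠ y) : kp (x, y) = ENNReal.ofReal (-Real.log |x - y|) := by
  unfold kp
  simp only
  rw [log_edist h, ← EReal.coe_neg, EReal.toENNReal_of_ne_top (by simp)]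
  simp

lemma kn_of_ne {x y : ℝ} (h : x ≠ y) : kn (x, y) = ENNReal.ofReal (Real.log |x - y|) := by
  unfold kn
  simp only
  rw [log_edist h, EReal.toENNReal_of_ne_top (by simp)]
  simp

lemma kp_diag (x : ℝ) : kp (x, x) = ⊤ := by unfold kp; simp

lemma kn_diag (x : ℝ) : kn (x, x) = 0 := by unfold kn; simp

lemma dist_le {x y : ℝ} (hx : x ∈ K0) (hy : y ∈ K0) : |x - y| ≤ 25 := by
  rw [abs_le]
  rcases hx with ⟨a, b⟩ | ⟨a, b⟩ <;> rcases hy with ⟨c, d⟩ | ⟨c, d⟩ <;> constructor <;> linarith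

lemma kn_le {x y : ℝ} (hx : x ∈ K0) (hy : y ∈ K0) : kn (x, y) ≤ ENNReal.ofReal (Real.log 25) := by
  by_cases h : x = y
  · rw [h, kn_diag]; exact zero_le
  · rw [kn_of_ne h]
    exact ENNReal.ofReal_le_ofReal (Real.log_le_log (abs_pos.2 (sub_ne_zero.2 h)) (dist_le hx hy))

lemma kn_integral_le {ν : Measure ℝ} (hν : ProbOn K0 ν) :
    ∫⁻ x, ∫⁻ y, kn (x, y) ∂ν ∂ν ≤ ENNReal.ofReal (Real.log 25) := by
  have := hν.1
  have hK : ∀ᵐ x ∂ν, x ∈ K0 := hν.2
  calc ∫⁻ x, ∫⁻ y, kn (x, y) ∂ν ∂ν ≤ ∫⁻ _, ENNReal.ofReal (Real.log 25) ∂ν := by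
        refine lintegral_mono_ae ?_
        filter_upwards [hK] with x hx
        calc ∫⁻ y, kn (x, y) ∂ν ≤ ∫⁻ _, ENNReal.ofReal (Real.log 25) ∂ν := by
              refine lintegral_mono_ae ?_
              filter_upwards [hK] with y hy
              exact kn_le hx hy
          _ = _ := by simp
    _ = _ := by simp

lemma logEnergy_eq (ν : Measure ℝ) : logEnergy ν =
    ((∫⁻ x, ∫⁻ y, kp (x, y) ∂ν ∂ν : ℝ≥0∞) : EReal)
      - ((∫⁻ x, ∫⁻ y, kn (x, y) ∂ν ∂ν : ℝ≥0∞) : EReal) := rfl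

/-- energy lower bound -/
lemma energy_ge {ν : Measure ℝ} (hν : ProbOn K0 ν) :
    ((-(Real.log 100 / 3) : ℝ) : EReal) ≤ logEnergy ν := by
  have := hν.1
  rw [logEnergy_eq]
  have hN := kn_integral_le hν
  set A := ∫⁻ x, ∫⁻ y, kp (x, y) ∂ν ∂ν with hA
  set B := ∫⁻ x, ∫⁻ y, kn (x, y) ∂ν ∂ν with hB
  have hBfin : B ≠ ⊤ := ne_top_of_le_ne_top ENNReal.ofReal_ne_top hN
  by_cases hAtop : A = ⊤
  · rw [hAtop]
    have : ((⊤ : ℝ≥0∞) : EReal) - (B : EReal) = ⊤ := by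
      rw [EReal.coe_ennreal_top, ← EReal.coe_ennreal_toReal hBfin, EReal.top_sub_coe]
    rw [this]; exact le_top
  -- finite case
  have hA' : ∫⁻ p, kp p ∂(ν.prod ν) = A := lintegral_prod _ kp_meas.aemeasurable
  have hB' : ∫⁻ p, kn p ∂(ν.prod ν) = B := lintegral_prod _ kn_meas.aemeasurable
  have hdiag : ∀ᵐ p ∂(ν.prod ν), p.1 ≠ p.2 := by
    have := ae_lt_top kp_meas (by rw [hA']; exact hAtop : ∫⁻ p, kp p ∂(ν.prod ν) ≠ ⊤)
    filter_upwards [this] with p hp h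
    have : kp p = ⊤ := by
      have e : p = (p.1, p.1) := by ext <;> simp [h]
      rw [e]; exact kp_diag _
    exact (this ▸ hp).ne rfl
  have hmeas : Measurable (fun p : ℝ × ℝ => Real.log |p.1 - p.2|) :=
    Real.measurable_log.comp (by fun_prop)
  have hp1 : ∫⁻ p, ENNReal.ofReal (-(Real.log |p.1 - p.2|)) ∂(ν.prod ν) = A := by
    rw [← hA']
    refine lintegral_congr_ae ?_
    filter_upwards [hdiag] with p hp
    exact (kp_of_ne hp).symm
  have hp2 : ∫⁻ p, ENNReal.ofReal (Real.log |p.1 - p.2|) ∂(ν.prod ν) = B := by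
    rw [← hB']
    refine lintegral_congr_ae ?_
    filter_upwards [hdiag] with p hp
    exact (kn_of_ne hp).symm
  have hint : Integrable (fun p : ℝ × ℝ => Real.log |p.1 - p.2|) (ν.prod ν) := by
    refine ⟨hmeas.aestronglyMeasurable, ?_⟩
    unfold HasFiniteIntegral
    have h1 : ∀ p : ℝ × ℝ, ‖Real.log |p.1 - p.2|‖ₑ ≤ ENNReal.ofReal (-(Real.log |p.1 - p.2|))
        + ENNReal.ofReal (Real.log |p.1 - p.2|) := by
      intro p
      rw [Real.enorm_eq_ofReal_abs]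
      rcases le_total 0 (Real.log |p.1 - p.2|) with h | h
      · rw [abs_of_nonneg h]; exact le_add_self
      · rw [abs_of_nonpos h]; exact le_self_add
    refine lt_of_le_of_lt (lintegral_mono h1) ?_
    rw [lintegral_add_left (by fun_prop), hp1, hp2]
    exact ENNReal.add_lt_top.2 ⟨lt_top_iff_ne_top.2 hAtop, lt_top_iff_ne_top.2 hBfin⟩
  have hJ := log_integral_le hν.2 hdiag hint
  rw [integral_eq_lintegral_pos_part_sub_lintegral_neg_part hint, hp1, hp2] at hJ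
  have e : (A : EReal) - (B : EReal) = ((A.toReal - B.toReal : ℝ) : EReal) := by
    rw [EReal.coe_sub, EReal.coe_ennreal_toReal hAtop, EReal.coe_ennreal_toReal hBfin]
  rw [e]
  exact_mod_cast (by linarith : -(Real.log 100 / 3) ≤ A.toReal - B.toReal)

lemma W_abs {x : ℝ} (hx : x ∈ K0) : |x ^ 3 - 147 * x - 486| ≤ 200 := by
  have := W_bound hx
  simpa [W] using this

/-- one-variable identity for the potential of `mu7` -/
lemma inner_eq {x : ℝ} (hx : x ∈ K0) :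
    ∫⁻ y, kn (x, y) ∂mu7 = ∫⁻ y, kp (x, y) ∂mu7 + ENNReal.ofReal (Real.log 100 / 3) := by
  obtain ⟨hint, hval⟩ := pot_on_K (W_abs hx)
  have hna : ∀ᵐ y ∂mu7, y ≠ x := by
    have h0 : mu7 {x} = 0 := by
      unfold mu7
      refine (withDensity_absolutelyContinuous _ _) ?_
      exact measure_mono_null (s := {x}) (t := {x}) (subset_refl _)
        (by
          have : (volume.restrict K0) {x} ≤ volume {x} := Measure.restrict_apply_le _ _
          simpa using this)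
    exact measure_eq_zero_iff_ae_notMem.1 h0
  have h1 : ∫⁻ y, kn (x, y) ∂mu7 = ∫⁻ y, ENNReal.ofReal (Real.log |y - x|) ∂mu7 := by
    refine lintegral_congr_ae ?_
    filter_upwards [hna] with y hy
    rw [kn_of_ne hy.symm, abs_sub_comm]
  have h2 : ∫⁻ y, kp (x, y) ∂mu7 = ∫⁻ y, ENNReal.ofReal (-Real.log |y - x|) ∂mu7 := by
    refine lintegral_congr_ae ?_
    filter_upwards [hna] with y hy
    rw [kp_of_ne hy.symm, abs_sub_comm]
  rw [integral_eq_lintegral_pos_part_sub_lintegral_neg_part hint] at hval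
  have f1 : ∫⁻ y, ENNReal.ofReal (Real.log |y - x|) ∂mu7 ≠ ⊤ := hint.lintegral_lt_top.ne
  have f2 : ∫⁻ y, ENNReal.ofReal (-Real.log |y - x|) ∂mu7 ≠ ⊤ := hint.neg.lintegral_lt_top.ne
  rw [h1, h2, ← ENNReal.ofReal_toReal f1, ← ENNReal.ofReal_toReal f2,
    ← ENNReal.ofReal_add ENNReal.toReal_nonneg
      (div_nonneg (Real.log_nonneg (by norm_num)) (by norm_num))]
  congr 1
  linarith

lemma probOn_mu7 : ProbOn K0 mu7 := ⟨inferInstance, mu7_compl⟩

lemma energy_mu7 : logEnergy mu7 = ((-(Real.log 100 / 3) : ℝ) : EReal) := by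
  rw [logEnergy_eq]
  have hN := kn_integral_le probOn_mu7
  set A := ∫⁻ x, ∫⁻ y, kp (x, y) ∂mu7 ∂mu7 with hA
  set B := ∫⁻ x, ∫⁻ y, kn (x, y) ∂mu7 ∂mu7 with hB
  have hBfin : B ≠ ⊤ := ne_top_of_le_ne_top ENNReal.ofReal_ne_top hN
  have hK : ∀ᵐ x ∂mu7, x ∈ K0 := mu7_compl
  have hBA : B = A + ENNReal.ofReal (Real.log 100 / 3) := by
    have : B = ∫⁻ x, (∫⁻ y, kp (x, y) ∂mu7 + ENNReal.ofReal (Real.log 100 / 3)) ∂mu7 := by
      refine lintegral_congr_ae ?_
      filter_upwards [hK] with x hx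
      exact inner_eq hx
    rw [this, lintegral_add_right _ measurable_const]
    simp [hA]
  have hAfin : A ≠ ⊤ := by
    intro h; rw [hBA, h] at hBfin; simp at hBfin
  have h2 : B.toReal = A.toReal + Real.log 100 / 3 := by
    rw [hBA, ENNReal.toReal_add hAfin ENNReal.ofReal_ne_top,
      ENNReal.toReal_ofReal (div_nonneg (Real.log_nonneg (by norm_num)) (by norm_num))]
  rw [← EReal.coe_ennreal_toReal hAfin, ← EReal.coe_ennreal_toReal hBfin, ← EReal.coe_sub, h2]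
  congr 1; ring

lemma isEquilibrium_mu7 : IsEquilibrium K0 mu7 :=
  ⟨probOn_mu7, fun ν hν => by rw [energy_mu7]; exact energy_ge hν⟩

lemma logCap_K0 : logCap K0 = ENNReal.ofReal (Real.exp (Real.log 100 / 3)) := by
  unfold logCap
  have : (⨅ (ν : Measure ℝ) (_ : ProbOn K0 ν), logEnergy ν)
      = ((-(Real.log 100 / 3) : ℝ) : EReal) := by
    apply le_antisymm
    · refine iInf₂_le_of_le mu7 probOn_mu7 ?_
      rw [energy_mu7]
    · exact le_iInf₂ (fun ν hν => energy_ge hν)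
  rw [this, ← EReal.coe_neg, neg_neg, EReal.exp_coe]

end Pool.Agent.Lib.MP_7fabd3_an
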