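import Mathlib
import Pool.Agent.Lib.MP_7fabd3_an.Energy

set_option autoImplicit false

namespace Pool.Agent.Lib.MP_7fabd3_an

open Set MeasureTheory
open scoped ENNReal

lemma gapSet_eq : gapSet (l := 1) ![-11, 13] ![-2, 14] = K0 := by
  ext x
  simp only [gapSet, K0, mem_iUnion, mem_union]
  constructor
  · rintro ⟨j, hj⟩
    fin_cases j
    · left; simpa using hj
    · right; simpa using hj
  · rintro (h | h)
    · exact ⟨0, by simpa using h⟩
    · exact ⟨1, by simpa using h⟩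

/-- the reflectionless measure with parameter `γ` -/
noncomputable def muG (γ : ℝ) : Measure ℝ :=
  (volume.restrict K0).withDensity (fun x => ENNReal.ofReal (rho γ x))

lemma reflMeasure_eq (γ : ℝ) : reflMeasure (l := 1) ![-11, 13] ![-2, 14] ![γ] = muG γ := by
  unfold reflMeasure muG
  rw [gapSet_eq]
  congr 1
  funext x
  unfold rho
  simp [Fin.prod_univ_two]

lemma ne_seven {x : ℝ} (hx : x ∈ K0) : x ≠ 7 := by
  rintro rfl
  rcases hx with ⟨a, b⟩ | ⟨a, b⟩ <;> linarith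

lemma muG_eq (γ : ℝ) : muG γ = mu7.withDensity (fun x => ENNReal.ofReal (|x - γ| / |x - 7|)) := by
  unfold muG mu7
  rw [← withDensity_mul _ (rho_meas 7).ennreal_ofReal (by fun_prop)]
  refine withDensity_congr_ae ?_
  filter_upwards [ae_restrict_mem K0_meas] with x hx
  simp only [Pi.mul_apply]
  have hp := Real.pi_pos
  have h7 : |x - 7| ≠ 0 := abs_ne_zero.2 (sub_ne_zero.2 (ne_seven hx))
  rw [← ENNReal.ofReal_mul (by unfold rho; positivity)]
  congr 1
  unfold rho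
  field_simp [h7]

lemma ratio_eq {γ x : ℝ} (hx : x ∈ K0) (h1 : -2 ≤ γ) (h2 : γ ≤ 13) :
    |x - γ| / |x - 7| = (x - γ) / (x - 7) := by
  rw [← abs_div, abs_of_nonneg]
  rcases hx with ⟨a, b⟩ | ⟨a, b⟩
  · exact div_nonneg_of_nonpos (by linarith) (by linarith)
  · exact div_nonneg (by linarith) (by linarith)

lemma mem_K0_A {θ : ℝ} (h : θ ∈ Ioo 0 Real.pi) : xA θ ∈ K0 := by
  have : xA θ ∈ xA '' Ioo 0 Real.pi := mem_image_of_mem _ h
  rw [xA_image] at this
  right; exact ⟨this.1.le, this.2.le⟩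
lemma mem_K0_B {θ : ℝ} (h : θ ∈ Ioo 0 Real.pi) : xB θ ∈ K0 := by
  have : xB θ ∈ xB '' Ioo 0 Real.pi := mem_image_of_mem _ h
  rw [xB_image] at this
  left; exact ⟨by linarith [this.1], this.2.le⟩
lemma mem_K0_C {θ : ℝ} (h : θ ∈ Ioo 0 Real.pi) : xC θ ∈ K0 := by
  have : xC θ ∈ xC '' Ioo 0 Real.pi := mem_image_of_mem _ h
  rw [xC_image] at this
  left; exact ⟨this.1.le, by linarith [this.2]⟩

/-- integrals of nonnegative functions against `muG γ` when the sum over the branches is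
constant -/
lemma lintegral_muG {γ : ℝ} (g : ℝ → ℝ) (hg : Continuous g)
    (hg0 : ∀ x ∈ K0, 0 ≤ g x) (h1 : -2 ≤ γ) (h2 : γ ≤ 13) (c : ℝ)
    (hsum : ∀ θ ∈ Ioo 0 Real.pi, g (xA θ) * ((xA θ - γ) / (xA θ - 7))
      + (g (xB θ) * ((xB θ - γ) / (xB θ - 7)) + g (xC θ) * ((xC θ - γ) / (xC θ - 7))) = 3 * c) :
    ∫⁻ x, ENNReal.ofReal (g x) ∂(muG γ) = ENNReal.ofReal c := by
  have hp := Real.pi_pos
  have hgm : Measurable (fun x => ENNReal.ofReal (g x)) := hg.measurable.ennreal_ofReal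
  have hrm : Measurable (fun x : ℝ => ENNReal.ofReal (|x - γ| / |x - 7|)) := by fun_prop
  rw [muG_eq, lintegral_withDensity_eq_lintegral_mul _ hrm hgm,
    lintegral_mu7 _ (hrm.mul hgm)]
  have key : ∀ x ∈ K0, ((fun x : ℝ => ENNReal.ofReal (|x - γ| / |x - 7|))
      * fun x => ENNReal.ofReal (g x)) x = ENNReal.ofReal (g x * ((x - γ) / (x - 7))) := by
    intro x hx
    simp only [Pi.mul_apply]
    rw [ratio_eq hx h1 h2, mul_comm, ← ENNReal.ofReal_mul (hg0 x hx)]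
  have hnn : ∀ x ∈ K0, 0 ≤ g x * ((x - γ) / (x - 7)) := by
    intro x hx
    refine mul_nonneg (hg0 x hx) ?_
    rw [← ratio_eq hx h1 h2]; positivity
  have mA : Measurable (fun θ => ((fun x : ℝ => ENNReal.ofReal (|x - γ| / |x - 7|))
      * fun x => ENNReal.ofReal (g x)) (xA θ)) := (hrm.mul hgm).comp xA_cont.measurable
  have mB : Measurable (fun θ => ((fun x : ℝ => ENNReal.ofReal (|x - γ| / |x - 7|))
      * fun x => ENNReal.ofReal (g x)) (xB θ)) := (hrm.mul hgm).comp xB_cont.measurable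
  rw [← lintegral_add_left mB, ← lintegral_add_left mA]
  have : ∫⁻ θ in Ioo 0 Real.pi, (((fun x : ℝ => ENNReal.ofReal (|x - γ| / |x - 7|))
      * fun x => ENNReal.ofReal (g x)) (xA θ) + (((fun x : ℝ => ENNReal.ofReal (|x - γ| / |x - 7|))
      * fun x => ENNReal.ofReal (g x)) (xB θ) + ((fun x : ℝ => ENNReal.ofReal (|x - γ| / |x - 7|))
      * fun x => ENNReal.ofReal (g x)) (xC θ)))
      = ∫⁻ θ in Ioo 0 Real.pi, ENNReal.ofReal (3 * c) := by
    refine setLIntegral_congr_fun measurableSet_Ioo (fun θ hθ => ?_)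
    have a := mem_K0_A hθ
    have b := mem_K0_B hθ
    have d := mem_K0_C hθ
    rw [key _ a, key _ b, key _ d, ← ENNReal.ofReal_add (hnn _ b) (hnn _ d),
      ← ENNReal.ofReal_add (hnn _ a) (add_nonneg (hnn _ b) (hnn _ d)), hsum θ hθ]
  rw [this]
  simp only [lintegral_const, Measure.restrict_apply MeasurableSet.univ, univ_inter,
    Real.volume_Ioo, sub_zero]
  rw [← ENNReal.ofReal_mul' hp.le, ← ENNReal.ofReal_mul (by positivity)]
  congr 1
  field_simp

lemma sum_inv {θ : ℝ} (h : θ ∈ Ioo 0 Real.pi) :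
    (xA θ - 7)⁻¹ + ((xB θ - 7)⁻¹ + (xC θ - 7)⁻¹) = 0 := by
  have a := sub_ne_zero.2 (ne_seven (mem_K0_A h))
  have b := sub_ne_zero.2 (ne_seven (mem_K0_B h))
  have c := sub_ne_zero.2 (ne_seven (mem_K0_C h))
  have h1 := x_sum θ
  have h2 := x_e2 θ
  have : (xA θ - 7)⁻¹ + ((xB θ - 7)⁻¹ + (xC θ - 7)⁻¹) =
      ((xA θ * xB θ + xA θ * xC θ + xB θ * xC θ) - 14 * (xA θ + xB θ + xC θ) + 147)
        / ((xA θ - 7) * (xB θ - 7) * (xC θ - 7)) := by
    field_simp; ring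
  rw [this, h1, h2]; norm_num

lemma muG_prob {γ : ℝ} (h1 : -2 ≤ γ) (h2 : γ ≤ 13) : IsProbabilityMeasure (muG γ) := by
  constructor
  have := lintegral_muG (γ := γ) (fun _ => 1) continuous_const (fun _ _ => by norm_num) h1 h2 1
    (by
      intro θ hθ
      have a := sub_ne_zero.2 (ne_seven (mem_K0_A hθ))
      have b := sub_ne_zero.2 (ne_seven (mem_K0_B hθ))
      have c := sub_ne_zero.2 (ne_seven (mem_K0_C hθ))
      have hs := sum_inv hθ
      have e : ∀ x : ℝ, x - 7 ≠ 0 → 1 * ((x - γ) / (x - 7)) = 1 + (7 - γ) * (x - 7)⁻¹ := by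
        intro x hx; field_simp; ring
      rw [e _ a, e _ b, e _ c]
      linear_combination (7 - γ) * hs)
  simpa using this

lemma second_moment : ∫⁻ x, ENNReal.ofReal ((x + 29 / 5) ^ 2) ∂(muG (64 / 5))
    = ENNReal.ofReal (594 / 25) := by
  refine lintegral_muG (fun x => (x + 29 / 5) ^ 2) (by fun_prop) (fun x _ => sq_nonneg _)
    (by norm_num) (by norm_num) _ ?_
  intro θ hθ
  have a := sub_ne_zero.2 (ne_seven (mem_K0_A hθ))
  have b := sub_ne_zero.2 (ne_seven (mem_K0_B hθ))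
  have c := sub_ne_zero.2 (ne_seven (mem_K0_C hθ))
  have hs := sum_inv hθ
  have h1 := x_sum θ
  have h2 := x_sq θ
  have e : ∀ x : ℝ, x - 7 ≠ 0 → (x + 29 / 5) ^ 2 * ((x - 64 / 5) / (x - 7))
      = x ^ 2 + 29 / 5 * x - 1856 / 25 - 118784 / 125 * (x - 7)⁻¹ := by
    intro x hx; field_simp; ring
  rw [e _ a, e _ b, e _ c]
  linear_combination (-118784 / 125) * hs + (29 / 5) * h1 + h2

/-- solutions of `u + 1/u = s` -/
lemma exists_u {s : ℝ} (hs : 5 / 2 ≤ s) : ∃ u : ℝ, 2 ≤ u ∧ u ≤ s ∧ u + 1 / u = s := by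
  have h1 : (3 / 2) ^ 2 ≤ s ^ 2 - 4 := by nlinarith
  have h2 : 3 / 2 ≤ √(s ^ 2 - 4) := Real.le_sqrt_of_sq_le h1
  have h3 : √(s ^ 2 - 4) ≤ s := by
    rw [Real.sqrt_le_left (by linarith)]; linarith
  have h4 : √(s ^ 2 - 4) ^ 2 = s ^ 2 - 4 := Real.sq_sqrt (by nlinarith)
  refine ⟨(s + √(s ^ 2 - 4)) / 2, by linarith, by linarith, ?_⟩
  have h5 : (0 : ℝ) < s + √(s ^ 2 - 4) := by linarith
  field_simp
  nlinarith

lemma log_ratio :
    Integrable (logDensity mu7 (muG (64 / 5))) mu7 ∧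
    ∃ u Z : ℝ, 2 ≤ u ∧ 1 ≤ Z ∧ Z ≤ 293 / 25 ∧
      ∫ x, logDensity mu7 (muG (64 / 5)) x ∂mu7 = (Real.log u - Real.log Z) / 3 := by
  obtain ⟨u, hu2, hus, hu⟩ := exists_u (s := 270448 / 100000) (by norm_num)
  obtain ⟨Z, hZ2, hZs, hZ⟩ := exists_u (s := 293 / 25) (by norm_num)
  obtain ⟨i1, v1⟩ := pot_off_K (y := 64 / 5) u (by linarith) (by rw [hu]; norm_num)
  obtain ⟨i2, v2⟩ := pot_off_K (y := 7) Z (by linarith) (by rw [hZ]; norm_num)
  have hae : logDensity mu7 (muG (64 / 5)) =ᵐ[mu7]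
      fun x => Real.log |x - 64 / 5| - Real.log |x - 7| := by
    have h1 := Measure.rnDeriv_withDensity mu7
      (f := fun x => ENNReal.ofReal (|x - 64 / 5| / |x - 7|)) (by fun_prop)
    rw [← muG_eq] at h1
    have hK : ∀ᵐ x ∂mu7, x ∈ K0 := mu7_compl
    filter_upwards [h1, hK] with x hx hxK
    unfold logDensity
    have h7 : |x - 7| ≠ 0 := abs_ne_zero.2 (sub_ne_zero.2 (ne_seven hxK))
    have h64 : |x - 64 / 5| ≠ 0 := by
      refine abs_ne_zero.2 (sub_ne_zero.2 ?_)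
      rintro rfl
      rcases hxK with ⟨a, b⟩ | ⟨a, b⟩ <;> linarith
    rw [hx, ENNReal.toReal_ofReal (by positivity), Real.log_div h64 h7]
  refine ⟨(i1.sub i2).congr hae.symm, u, Z, hu2, by linarith, hZs, ?_⟩
  rw [integral_congr_ae hae, integral_sub i1 i2, v1, v2]
  ring

lemma final_numeric {u Z : ℝ} (hu : 2 ≤ u) (hZ1 : 1 ≤ Z) (hZ : Z ≤ 293 / 25) :
    594 / 25 < Real.exp (Real.log 100 / 3) ^ 2 * (2 * Real.exp ((Real.log u - Real.log Z) / 3)) := by
  have h1 : Real.exp (Real.log 100 / 3) ^ 2 * Real.exp ((Real.log u - Real.log Z) / 3)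
      = Real.exp ((Real.log (100 ^ 2 * u / Z)) / 3) := by
    rw [← Real.exp_nat_mul, ← Real.exp_add]
    congr 1
    rw [Real.log_div (by positivity) (by positivity), Real.log_mul (by positivity) (by positivity),
      Real.log_pow]
    push_cast; ring
  have h2 : (297 / 25 : ℝ) < Real.exp ((Real.log (100 ^ 2 * u / Z)) / 3) := by
    rw [← Real.log_lt_iff_lt_exp (by norm_num)]
    have h3 : 3 * Real.log (297 / 25) < Real.log (100 ^ 2 * u / Z) := by
      have : 3 * Real.log (297 / 25) = Real.log ((297 / 25) ^ 3) := by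
        rw [Real.log_pow]; norm_num
      rw [this]
      apply Real.log_lt_log (by norm_num)
      rw [lt_div_iff₀ (by linarith)]
      nlinarith
    linarith
  have h4 : Real.exp (Real.log 100 / 3) ^ 2 * (2 * Real.exp ((Real.log u - Real.log Z) / 3))
      = 2 * (Real.exp (Real.log 100 / 3) ^ 2 * Real.exp ((Real.log u - Real.log Z) / 3)) := by ring
  rw [h4, h1]; linarith

lemma widom_sq_le : (widom K0 (muG (64 / 5)) 1) ^ 2 ≤
    ENNReal.ofReal (594 / 25) / ENNReal.ofReal (Real.exp (Real.log 100 / 3) ^ 2) := by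
  unfold widom
  rw [pow_one, logCap_K0, div_eq_mul_inv, mul_pow, ← ENNReal.inv_pow, ← div_eq_mul_inv,
    ← ENNReal.ofReal_pow (Real.exp_pos _).le]
  refine ENNReal.div_le_div_right ?_ _
  have h1 : (⨅ (P : Polynomial ℂ) (_ : P.Monic) (_ : P.natDegree = 1),
      eLpNorm (fun x : ℝ => P.eval (x : ℂ)) 2 (muG (64 / 5)))
      ≤ eLpNorm (fun x : ℝ => (Polynomial.X + Polynomial.C (29 / 5 : ℂ)).eval (x : ℂ)) 2
        (muG (64 / 5)) :=
    iInf_le_of_le _ (iInf_le_of_le (Polynomial.monic_X_add_C _)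
      (iInf_le_of_le (Polynomial.natDegree_X_add_C _) le_rfl))
  have h2 : eLpNorm (fun x : ℝ => (Polynomial.X + Polynomial.C (29 / 5 : ℂ)).eval (x : ℂ)) 2
        (muG (64 / 5)) ^ 2 = ENNReal.ofReal (594 / 25) := by
    rw [eLpNorm_eq_lintegral_rpow_enorm_toReal (by norm_num) (by norm_num)]
    rw [← ENNReal.rpow_natCast, ← ENNReal.rpow_mul]
    have e2 : (1 / (2 : ℝ≥0∞).toReal * ((2 : ℕ) : ℝ)) = 1 := by simp
    rw [e2, ENNReal.rpow_one, ← second_moment]
    refine lintegral_congr (fun x => ?_)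
    have e3 : (Polynomial.X + Polynomial.C (29 / 5 : ℂ)).eval (x : ℂ) = ((x + 29 / 5 : ℝ) : ℂ) := by
      simp
    rw [e3]
    have e4 : ‖((x + 29 / 5 : ℝ) : ℂ)‖ₑ = ENNReal.ofReal |x + 29 / 5| := by
      rw [← ofReal_norm, Complex.norm_real, Real.norm_eq_abs]
    rw [e4]
    have e5 : (2 : ℝ≥0∞).toReal = ((2 : ℕ) : ℝ) := by simp
    rw [e5, ENNReal.rpow_natCast, ← ENNReal.ofReal_pow (abs_nonneg _), sq_abs]
  calc _ ≤ _ := by gcongr
    _ = _ := h2

end Pool.Agent.Lib.MP_7fabd3_an
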